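import Pool.Agent.U899.QA.Quad

/-!
# K3 double covers: approximation of local points over quadratic extensions, the theorems (helper899)
-/

set_option autoImplicit false

open MvPolynomial Pool.Agent.Y720.MZ Filter Topology

namespace Pool.Agent.U899.QA

open Pool.Agent.Q35.TT Pool.Agent.Q35.TB Pool.Agent.Results.MP_ed3816_nt.OpenAwayFromTorsion
open Pool.Agent.Q222.TT.Opn

/-- the quadratic extensions generated by the values of `f` -/
theorem core (K : Type) [Field K] [NumberField K] (f : MvPolynomial (Fin 2) K)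
    (hf : ∀ j, f.degreeOf j ≤ 4) (hs : SmoothN f) :
    ∃ A : Fin 2 → Set K, (∀ j, (A j).Finite) ∧ ∀ z : Fin 2 → K, (∀ j, z j ∉ A j) →
      ¬ IsSquare (eval z f) → ∃ (L : Type) (_ : Field L) (_ : NumberField L) (_ : Algebra K L) (w : L),
      Module.finrank K L = 2 ∧ w ≠ 0 ∧ OnCover (ex L f) (fun j => algebraMap K L (z j), w) ∧
      (∀ (M : Type) [Field M] (σ : K →+* M) (w' : M), w' ^ 2 = σ (eval z f) →
        ∃ σ' : L →+* M, σ'.comp (algebraMap K L) = σ ∧ σ' w = w') ∧
      ∀ (ι : Type) [Finite ι] [Nonempty ι] (p : ι → ℕ) [∀ v, Fact (p v).Prime], Function.Injective p →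
        ∀ σ : ∀ v, L →+* ℚ_[p v],
          OpenAt (ex L f) σ (fun v => image (σ v) (fun j => algebraMap K L (z j), w)) ∧ ∀ τ : L →+* ℝ,
            OpenAtReal (ex L f) σ τ (image τ (fun j => algebraMap K L (z j), w),
              fun v => image (σ v) (fun j => algebraMap K L (z j), w)) := by
  obtain ⟨T, E, hT, hE, hU⟩ := uopn K f hf hs 2
  have hinj : Function.Injective (algebraMap K (AlgebraicClosure K)) := (algebraMap K _).injective
  refine ⟨fun j => {c | algebraMap K (AlgebraicClosure K) c ∈ E j} ∪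
    {c | algebraMap K (AlgebraicClosure K) c ∈ (fun t : Fin 2 → AlgebraicClosure K => t j) '' T},
    fun j => ((hE j).preimage hinj.injOn).union ((hT.image _).preimage hinj.injOn), ?_⟩
  intro z hz hns
  obtain ⟨L, iL, iN, iA, w, hfr, hw, hext⟩ := exists_quad K _ hns
  have hw0 : w ≠ 0 := by
    rintro rfl
    rw [zero_pow two_ne_zero, eq_comm, map_eq_zero] at hw
    exact hns (by rw [hw]; exact ⟨0, by simp⟩)
  have hon : OnCover (ex L f) (fun j => algebraMap K L (z j), w) := by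
    change w ^ 2 = eval (fun j => algebraMap K L (z j)) (ex L f)
    rw [hw, ex, eval_map, show (fun j => algebraMap K L (z j)) = algebraMap K L ∘ z from rfl,
      ← eval₂_comp (algebraMap K L) z f]
  refine ⟨L, iL, iN, iA, w, hfr, hw0, hon, hext, ?_⟩
  intro ι _ _ p _ hp σ
  have hfd : Module.Finite K L := Module.finite_of_finrank_pos (by omega)
  have φ : L →ₐ[K] AlgebraicClosure K := IsAlgClosed.lift
  have h1 := hU L hfr.le 1 one_ne_zero φ (fun j => algebraMap K L (z j)) w hw0 (by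
    rw [C_1, one_mul]; exact hon) (fun hmem => hz 0 (Or.inr ⟨_, hmem, by simp⟩))
    (fun j hmem => hz j (Or.inl (by simpa using hmem))) ι p hp σ
  simpa only [C_1, one_mul] using h1

/-- **Approximation over quadratic extensions**, `p`-adic places. -/
theorem quad_p (K : Type) [Field K] [NumberField K] (f : MvPolynomial (Fin 2) K)
    (hf : ∀ j, f.degreeOf j ≤ 4) (hs : SmoothN f) (ι : Type) [Finite ι] [Nonempty ι] (p : ι → ℕ)
    [hp : ∀ v, Fact (p v).Prime] (hinj : Function.Injective p) (σ : ∀ v, K →+* ℚ_[p v])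
    (S : ∀ v, (Fin 2 → ℚ_[p v]) × ℚ_[p v]) (hS : ∀ v, OnCover (map (σ v) f) (S v))
    (hS0 : ∀ v, (S v).2 ≠ 0) {ε : ℝ} (hε : 0 < ε) :
    ∃ (L : Type) (_ : Field L) (_ : NumberField L) (_ : Algebra K L) (σ' : ∀ v, L →+* ℚ_[p v])
      (P : (Fin 2 → L) × L), Module.finrank K L = 2 ∧ (∀ v, (σ' v).comp (algebraMap K L) = σ v) ∧
      OnCover (ex L f) P ∧ P.2 ≠ 0 ∧ (∀ v, dist (S v) (image (σ' v) P) < ε) ∧
      OpenAt (ex L f) σ' (fun v => image (σ' v) P) := by
  classical
  obtain ⟨A, hA, hcore⟩ := core K f hf hs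
  obtain ⟨l, hl, hlS, σl, y, δ, hδ, hns⟩ := nsq K f hf hs (Set.finite_range p).toFinset
  have hlr : ∀ v, p v ≠ l := fun v h => hlS (by
    rw [Set.Finite.mem_toFinset]; exact ⟨v, h⟩)
  choose η hη hηl using fun v => lift_near (σ v) f (hS0 v) (hS v) hε
  let p' : Option ι → ℕ := fun v => v.elim l p
  haveI hp' : ∀ v, Fact (p' v).Prime := fun v => by
    rcases v with _ | v
    · exact hl
    · exact hp v
  have hinj' : Function.Injective p' := by
    rintro (_ | v) (_ | v') h
    · rfl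
    · exact absurd h.symm (hlr v')
    · exact absurd h (hlr v)
    · exact congrArg some (hinj h)
  let s : ∀ v, K →+* ℚ_[p' v] := fun v => match v with
    | none => σl
    | some v => σ v
  let ηf : Option ι → ℝ := fun v => v.elim (min δ ε) fun v => min (η v) ε
  have hηf : ∀ v, 0 < ηf v := by
    rintro (_ | v)
    · exact lt_min hδ hε
    · exact lt_min (hη v) hε
  obtain ⟨v0, hv0⟩ := Finite.exists_min ηf
  have hz : ∀ j : Fin 2, ∃ x : K, x ∉ A j ∧ ∀ v, ‖s v x - (match v with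
      | none => y j
      | some v => (S v).1 j : ℚ_[p' v])‖ < ηf v0 := fun j =>
    dn_avoid (dn_p hinj' s) none (hA j) _ (hηf v0)
  choose z hzA hz using hz
  have hzl : ∀ j, ‖σl (z j) - y j‖ < δ := fun j =>
    (hz j none).trans_le ((hv0 none).trans (min_le_left _ _))
  have hzv : ∀ v j, ‖σ v (z j) - (S v).1 j‖ < min (η v) ε := fun v j =>
    (hz j (some v)).trans_le (hv0 (some v))
  obtain ⟨L, iL, iN, iA, w, hfr, hw0, hon, hext, hop⟩ := hcore z hzA (hns z hzl)
  choose w' hw' hw'n using fun v => hηl v z fun j => (hzv v j).trans_le (min_le_left _ _)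
  choose σ' hσ' hσw using fun v => hext ℚ_[p v] (σ v) (w' v) (hw' v)
  refine ⟨L, iL, iN, iA, σ', (fun j => algebraMap K L (z j), w), hfr, hσ', hon, hw0, fun v => ?_,
    (hop ι p hinj σ').1⟩
  rw [dist_image (σ' v) _ (S v) hε]
  refine ⟨fun j => ?_, ?_⟩
  · have h1 : σ' v (algebraMap K L (z j)) = σ v (z j) := by rw [← hσ' v]; rfl
    change ‖σ' v (algebraMap K L (z j)) - (S v).1 j‖ < ε
    rw [h1]
    exact (hzv v j).trans_le (min_le_right _ _)
  · change ‖σ' v w - (S v).2‖ < ε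
    rw [hσw]
    exact hw'n v

/-- **Approximation over quadratic extensions**, with a real place. -/
theorem quad_r (K : Type) [Field K] [NumberField K] (f : MvPolynomial (Fin 2) K)
    (hf : ∀ j, f.degreeOf j ≤ 4) (hs : SmoothN f) (ι : Type) [Finite ι] [Nonempty ι] (p : ι → ℕ)
    [hp : ∀ v, Fact (p v).Prime] (hinj : Function.Injective p) (σ : ∀ v, K →+* ℚ_[p v]) (τ : K →+* ℝ)
    (R : (Fin 2 → ℝ) × ℝ) (hR : OnCover (map τ f) R) (hR0 : R.2 ≠ 0)
    (S : ∀ v, (Fin 2 → ℚ_[p v]) × ℚ_[p v]) (hS : ∀ v, OnCover (map (σ v) f) (S v))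
    (hS0 : ∀ v, (S v).2 ≠ 0) {ε : ℝ} (hε : 0 < ε) :
    ∃ (L : Type) (_ : Field L) (_ : NumberField L) (_ : Algebra K L) (σ' : ∀ v, L →+* ℚ_[p v])
      (τ' : L →+* ℝ) (P : (Fin 2 → L) × L), Module.finrank K L = 2 ∧
      (∀ v, (σ' v).comp (algebraMap K L) = σ v) ∧ τ'.comp (algebraMap K L) = τ ∧
      OnCover (ex L f) P ∧ P.2 ≠ 0 ∧ (∀ v, dist (S v) (image (σ' v) P) < ε) ∧ dist R (image τ' P) < ε ∧
      OpenAtReal (ex L f) σ' τ' (image τ' P, fun v => image (σ' v) P) := by
  classical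
  obtain ⟨A, hA, hcore⟩ := core K f hf hs
  obtain ⟨l, hl, hlS, σl, y, δ, hδ, hns⟩ := nsq K f hf hs (Set.finite_range p).toFinset
  have hlr : ∀ v, p v ≠ l := fun v h => hlS (by
    rw [Set.Finite.mem_toFinset]; exact ⟨v, h⟩)
  choose η hη hηl using fun v => lift_near (σ v) f (hS0 v) (hS v) hε
  obtain ⟨ηr, hηr, hηrl⟩ := lift_near τ f hR0 hR hε
  let p' : Option ι → ℕ := fun v => v.elim l p
  haveI hp' : ∀ v, Fact (p' v).Prime := fun v => by
    rcases v with _ | v
    · exact hl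
    · exact hp v
  have hinj' : Function.Injective p' := by
    rintro (_ | v) (_ | v') h
    · rfl
    · exact absurd h.symm (hlr v')
    · exact absurd h (hlr v)
    · exact congrArg some (hinj h)
  let s : ∀ v, K →+* ℚ_[p' v] := fun v => match v with
    | none => σl
    | some v => σ v
  let ηf : Option (Option ι) → ℝ := fun v => v.elim (min ηr ε) fun v =>
    v.elim (min δ ε) fun v => min (η v) ε
  have hηf : ∀ v, 0 < ηf v := by
    rintro (_ | _ | v)
    · exact lt_min hηr hε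
    · exact lt_min hδ hε
    · exact lt_min (hη v) hε
  obtain ⟨v0, hv0⟩ := Finite.exists_min ηf
  have hz : ∀ j : Fin 2, ∃ x : K, x ∉ A j ∧ ∀ v, ‖sv s τ v x - (match v with
      | none => R.1 j
      | some none => y j
      | some (some v) => (S v).1 j : Lv p' v)‖ < ηf v0 := fun j =>
    dn_avoid (dn_all hinj' s τ) none (hA j) _ (hηf v0)
  choose z hzA hz using hz
  have hzl : ∀ j, ‖σl (z j) - y j‖ < δ := fun j =>
    (hz j (some none)).trans_le ((hv0 (some none)).trans (min_le_left _ _))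
  have hzv : ∀ v j, ‖σ v (z j) - (S v).1 j‖ < min (η v) ε := fun v j =>
    (hz j (some (some v))).trans_le (hv0 (some (some v)))
  have hzr : ∀ j, ‖τ (z j) - R.1 j‖ < min ηr ε := fun j =>
    (hz j none).trans_le (hv0 none)
  obtain ⟨L, iL, iN, iA, w, hfr, hw0, hon, hext, hop⟩ := hcore z hzA (hns z hzl)
  choose w' hw' hw'n using fun v => hηl v z fun j => (hzv v j).trans_le (min_le_left _ _)
  choose σ' hσ' hσw using fun v => hext ℚ_[p v] (σ v) (w' v) (hw' v)
  obtain ⟨wr, hwr, hwrn⟩ := hηrl z fun j => (hzr j).trans_le (min_le_left _ _)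
  obtain ⟨τ', hτ', hτw⟩ := hext ℝ τ wr hwr
  refine ⟨L, iL, iN, iA, σ', τ', (fun j => algebraMap K L (z j), w), hfr, hσ', hτ', hon, hw0,
    fun v => ?_, ?_, (hop ι p hinj σ').2 τ'⟩
  · rw [dist_image (σ' v) _ (S v) hε]
    refine ⟨fun j => ?_, ?_⟩
    · have h1 : σ' v (algebraMap K L (z j)) = σ v (z j) := by rw [← hσ' v]; rfl
      change ‖σ' v (algebraMap K L (z j)) - (S v).1 j‖ < ε
      rw [h1]
      exact (hzv v j).trans_le (min_le_right _ _)
    · change ‖σ' v w - (S v).2‖ < ε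
      rw [hσw]
      exact hw'n v
  · rw [dist_image τ' _ R hε]
    refine ⟨fun j => ?_, ?_⟩
    · have h1 : τ' (algebraMap K L (z j)) = τ (z j) := by rw [← hτ']; rfl
      change ‖τ' (algebraMap K L (z j)) - R.1 j‖ < ε
      rw [h1]
      exact (hzr j).trans_le (min_le_right _ _)
    · change ‖τ' w - R.2‖ < ε
      rw [hτw]
      exact hwrn

end Pool.Agent.U899.QA
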