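import Pool.Agent.U899.QA.Zc
import Pool.Agent.U899.QA.Main

/-!
# K3 double covers: points over quadratic extensions which avoid local conditions (helper899)
-/

set_option autoImplicit false

open MvPolynomial Pool.Agent.Y720.MZ Filter Topology

namespace Pool.Agent.U899.QA

open Pool.Agent.Q35.TT Pool.Agent.Q35.TB Pool.Agent.Results.MP_ed3816_nt.OpenAwayFromTorsion
open Pool.Agent.Q222.TT.Opn

theorem eval_im {L M : Type} [Field L] [Field M] (σ : L →+* M) (g : MvPolynomial (Option (Fin 2)) L)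
    (Q : (Fin 2 → L) × L) :
    eval (fun o : Option (Fin 2) => o.elim (image σ Q).2 (image σ Q).1) (map σ g) =
      σ (eval (fun o => o.elim Q.2 Q.1) g) := by
  have e : (fun o : Option (Fin 2) => o.elim (image σ Q).2 (image σ Q).1) =
      σ ∘ fun o : Option (Fin 2) => o.elim Q.2 Q.1 := by
    funext o
    rcases o with _ | j <;> rfl
  rw [eval_map, e, ← eval₂_comp σ _ g]

/-- the set of the `L`-points near `P` at all given places is Zariski dense, if the closure of the set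
of the `L`-points is open at `P` and the `L`-points near `P` at one of the places are Zariski dense -/
theorem zar_prod {L : Type} [Field L] (f : MvPolynomial (Fin 2) L) {ι : Type} [Finite ι]
    {p : ι → ℕ} [∀ v, Fact (p v).Prime] (σ : ∀ v, L →+* ℚ_[p v]) (P : (Fin 2 → L) × L) (v0 : ι)
    (hP : P.2 ^ 2 = eval P.1 f)
    (hop : OpenAt f σ (fun v => image (σ v) P)) (hden : DenseNearN (σ v0) f P)
    (W : ∀ v, Set ((Fin 2 → ℚ_[p v]) × ℚ_[p v])) (hW : ∀ v, W v ∈ 𝓝 (image (σ v) P))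
    (g : MvPolynomial (Option (Fin 2)) L)
    (hg : ∀ Q : (Fin 2 → L) × L, Q.2 ^ 2 = eval Q.1 f → (∀ v, image (σ v) Q ∈ W v) →
      eval (fun o => o.elim Q.2 Q.1) g = 0) : (X none ^ 2 - rename some f) ∣ g := by
  classical
  obtain ⟨U, hU, hUc⟩ := hop
  rw [nhds_pi, Filter.mem_pi] at hU
  obtain ⟨I, -, t, ht, htU⟩ := hU
  have hon : ∀ (Q : (Fin 2 → L) × L), Q.2 ^ 2 = eval Q.1 f → ∀ v, OnCover (map (σ v) f) (image (σ v) Q) := by
    intro Q hQ v
    change (σ v Q.2) ^ 2 = eval (fun j => σ v (Q.1 j)) (map (σ v) f)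
    rw [← map_pow, hQ, eval_map, show (fun j => σ v (Q.1 j)) = σ v ∘ Q.1 from rfl,
      ← eval₂_comp (σ v) Q.1 f]
  refine hden (t v0 ∩ interior (W v0))
    (Filter.inter_mem (ht v0) (interior_mem_nhds.2 (hW v0))) g fun Q hQ hQV => ?_
  by_contra hne
  obtain ⟨S, hS⟩ : ∃ S : ∀ v, (Fin 2 → ℚ_[p v]) × ℚ_[p v],
    S = Function.update (fun v => image (σ v) P) v0 (image (σ v0) Q) := ⟨_, rfl⟩
  have hS0 : S v0 = image (σ v0) Q := by rw [hS, Function.update_self]
  have hS1 : ∀ v, v ≠ v0 → S v = image (σ v) P := fun v hv => by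
    rw [hS, Function.update_of_ne hv]
  have hSt : ∀ v, S v ∈ t v ∩ interior (W v) := by
    intro v
    by_cases hv : v = v0
    · subst hv
      rw [hS0]
      exact hQV
    · rw [hS1 v hv]
      exact ⟨mem_of_mem_nhds (ht v), mem_of_mem_nhds (interior_mem_nhds.2 (hW v))⟩
  have hSc : S ∈ Closure f σ := by
    refine hUc S (htU fun v _ => (hSt v).1) fun v => ?_
    by_cases hv : v = v0
    · subst hv
      rw [hS0]
      exact hon Q hQ v
    · rw [hS1 v hv]
      exact hon P hP v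
  have hcont : Continuous fun S : ∀ v, (Fin 2 → ℚ_[p v]) × ℚ_[p v] =>
      eval (fun o : Option (Fin 2) => o.elim (S v0).2 (S v0).1) (map (σ v0) g) := by
    refine (MvPolynomial.continuous_eval _).comp (continuous_pi fun o => ?_)
    rcases o with _ | j
    · exact continuous_snd.comp (continuous_apply v0)
    · exact (continuous_apply j).comp (continuous_fst.comp (continuous_apply v0))
  have hopen : IsOpen ({S : ∀ v, (Fin 2 → ℚ_[p v]) × ℚ_[p v] |
      eval (fun o : Option (Fin 2) => o.elim (S v0).2 (S v0).1) (map (σ v0) g) ≠ 0} ∩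
      Set.univ.pi fun v => interior (W v)) :=
    (isOpen_ne_fun hcont continuous_const).inter
      (isOpen_set_pi Set.finite_univ fun v _ => isOpen_interior)
  have hmem : S ∈ ({S : ∀ v, (Fin 2 → ℚ_[p v]) × ℚ_[p v] |
      eval (fun o : Option (Fin 2) => o.elim (S v0).2 (S v0).1) (map (σ v0) g) ≠ 0} ∩
      Set.univ.pi fun v => interior (W v)) := by
    refine ⟨?_, fun v _ => (hSt v).2⟩
    change eval (fun o : Option (Fin 2) => o.elim (S v0).2 (S v0).1) (map (σ v0) g) ≠ 0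
    rw [hS0, eval_im]
    exact (map_ne_zero (σ v0)).2 hne
  obtain ⟨S', hS'1, Q', hQ', rfl⟩ := mem_closure_iff.1 hSc _ hopen hmem
  have h1 : eval (fun o : Option (Fin 2) => o.elim (image (σ v0) Q').2 (image (σ v0) Q').1)
      (map (σ v0) g) ≠ 0 := hS'1.1
  rw [eval_im] at h1
  refine h1 ?_
  rw [hg Q' hQ' fun v => interior_subset (hS'1.2 v (Set.mem_univ v)), map_zero]

/-- **Zariski density of the points over quadratic extensions which avoid local conditions.** -/
theorem hil (K : Type) [Field K] [NumberField K] (F : MvPolynomial (Fin 2 × Fin 2) K) (hF : Hom4 F)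
    (hs : SmoothF F) (e : Fin 2 → Fin 2) (ι : Type) [Finite ι] [Nonempty ι] (p : ι → ℕ)
    [hp : ∀ v, Fact (p v).Prime] (hinj : Function.Injective p) (σ : ∀ v, K →+* ℚ_[p v])
    (B : ∀ v, Set ((Fin 2 → ℚ_[p v]) × ℚ_[p v]))
    (S : ∀ v, (Fin 2 → ℚ_[p v]) × ℚ_[p v])
    (hS : ∀ v, (S v).2 ^ 2 = eval (S v).1 (map (σ v) (ch F e))) (hS0 : ∀ v, (S v).2 ≠ 0)
    (hSB : ∀ v, S v ∉ closure (B v)) (N : Type) [Field N] [NumberField N] [Algebra K N] :
    ∃ (L : Type) (_ : Field L) (_ : NumberField L) (_ : Algebra K L) (σ' : ∀ v, L →+* ℚ_[p v]),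
      Module.finrank K L = 2 ∧ IsEmpty (L →ₐ[K] N) ∧ (∀ v, (σ' v).comp (algebraMap K L) = σ v) ∧
      ∀ g : MvPolynomial (Option (Fin 2)) L,
        (∀ Q : (Fin 2 → L) × L, Q.2 ^ 2 = eval Q.1 (ex L (ch F e)) →
          (∀ v, image (σ' v) Q ∉ B v) → eval (fun o => o.elim Q.2 Q.1) g = 0) →
        (X none ^ 2 - rename some (ex L (ch F e))) ∣ g := by
  classical
  obtain ⟨hf, hsn, -⟩ := Pool.Agent.Q182.TT.CHF.chf K 2 F hF e
  obtain ⟨A, hA, hcore⟩ := core K (ch F e) hf (hsn hs)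
  obtain ⟨A', hA', hzd⟩ := zdN K (n := 2) (by norm_num) F hF hs (Or.inl rfl) e
  have hball : ∀ v, ∃ ε : ℝ, 0 < ε ∧ Metric.ball (S v) ε ⊆ (B v)ᶜ := by
    intro v
    have h1 : (closure (B v))ᶜ ∈ 𝓝 (S v) := isClosed_closure.isOpen_compl.mem_nhds (hSB v)
    obtain ⟨ε, hε, h2⟩ := Metric.mem_nhds_iff.1 h1
    exact ⟨ε, hε, h2.trans (Set.compl_subset_compl.2 subset_closure)⟩
  choose ε hε hεB using hball
  obtain ⟨v0, hv0⟩ := Finite.exists_min ε
  have hd : ∀ v, DenseRange (σ v) := by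
    intro v
    refine Metric.denseRange_iff.2 fun x r hr => ?_
    obtain ⟨q, hq⟩ := near_padic (σ v) x hr
    exact ⟨(q : K), by rw [dist_comm, dist_eq_norm]; exact hq⟩
  have hne : Pairwise fun v v' => ¬ (pl (σ v)).IsEquiv (pl (σ v')) := by
    intro v v' hv h
    have h1 : pl (σ v') (p v : K) < 1 := by
      rw [← h.lt_one_iff, pl_apply, map_natCast]
      exact Padic.norm_p_lt_one
    rw [pl_apply, map_natCast] at h1
    have h2 : ‖((p v : ℕ) : ℚ_[p v'])‖ = 1 := by
      rw [Padic.norm_natCast_eq_one_iff]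
      exact (Nat.coprime_primes (hp v').out (hp v).out).2 fun h3 => hv (hinj h3.symm)
    rw [h2] at h1
    exact lt_irrefl _ h1
  obtain ⟨z, hzA, hnsN, hzv⟩ := zex K (by norm_num) F hF hs e ι (fun v => ℚ_[p v]) σ hd hne S hS
    hS0 N (hε v0) (A := fun j => A j ∪ A' j) fun j => (hA j).union (hA' j)
  have hnsK : ¬ IsSquare (eval z (ch F e)) := fun h => hnsN (h.map (algebraMap K N))
  obtain ⟨L, iL, iN, iA, w, hfr, hw0, hon, hext, hop⟩ := hcore z (fun j h => hzA j (Or.inl h)) hnsK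
  have hw : w ^ 2 = algebraMap K L (eval z (ch F e)) := by
    have h1 : w ^ 2 = eval (fun j => algebraMap K L (z j)) (ex L (ch F e)) := hon
    rw [h1, ex, eval_map, show (fun j => algebraMap K L (z j)) = algebraMap K L ∘ z from rfl,
      ← eval₂_comp (algebraMap K L) z (ch F e)]
  choose w' hw' hwz hwn using hzv
  choose σ' hσ' hσw using fun v => hext ℚ_[p v] (σ v) (w' v) (hw' v)
  have hdist : ∀ v, dist (S v) (image (σ' v) (fun j => algebraMap K L (z j), w)) < ε v0 := by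
    intro v
    rw [dist_im (hε v0)]
    refine ⟨fun j => ?_, ?_⟩
    · have h1 : σ' v (algebraMap K L (z j)) = σ v (z j) := by rw [← hσ' v]; rfl
      change ‖σ' v (algebraMap K L (z j)) - (S v).1 j‖ < ε v0
      rw [h1]
      exact hwz v j
    · change ‖σ' v w - (S v).2‖ < ε v0
      rw [hσw]
      exact hwn v
  refine ⟨L, iL, iN, iA, σ', hfr, ⟨fun ψ => ?_⟩, hσ', fun g hg => ?_⟩
  · apply hnsN
    refine ⟨ψ w, ?_⟩
    rw [← map_mul, ← pow_two, hw, AlgHom.commutes]
  · have hd' : DenseRange (σ' v0) := by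
      refine (hd v0).mono ?_
      rintro _ ⟨x, rfl⟩
      exact ⟨algebraMap K L x, by rw [← hσ' v0]; rfl⟩
    refine zar_prod (ex L (ch F e)) σ' (fun j => algebraMap K L (z j), w) v0 hon
      (hop ι p hinj σ').1 (hzd z (fun j h => hzA j (Or.inr h)) L w hw0 hw _ (σ' v0) hd')
      (fun v => Metric.ball (S v) (ε v)) (fun v => ?_) g fun Q hQ hQW => hg Q hQ fun v hv => ?_
    · refine Metric.isOpen_ball.mem_nhds ?_
      rw [Metric.mem_ball, dist_comm]
      exact (hdist v).trans_le (hv0 v)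
    · exact hεB v (hQW v) hv

end Pool.Agent.U899.QA
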