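import Pool.Agent.U899.QA.Hil

/-!
# Local points of K3 double covers which do not lift to Kummer covers (helper899)
-/

set_option autoImplicit false

open MvPolynomial Pool.Agent.Y720.MZ Filter Topology

namespace Pool.Agent.U899.QA

open Pool.Agent.Q35.TT Pool.Agent.Q35.TB
open Pool.Agent.Q224.TT

/-- the norm of an `m`-th power -/
theorem not_pow {p : ℕ} [hp : Fact p.Prime] {m : ℕ} (hm : 2 ≤ m) {b : ℚ_[p]} {k : ℕ}
    (h : ‖b ^ m‖ = ‖((p : ℚ_[p]) ^ (m * k + 1))‖) : False := by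
  have hp0 : (p : ℚ_[p]) ≠ 0 := by exact_mod_cast hp.out.ne_zero
  have hb : b ≠ 0 := by
    rintro rfl
    rw [zero_pow (by omega), norm_zero] at h
    exact (norm_ne_zero_iff.2 (pow_ne_zero _ hp0)) h.symm
  rw [Padic.norm_p_pow, norm_pow, Padic.norm_eq_zpow_neg_valuation hb, ← zpow_natCast, ← zpow_mul] at h
  have h1 : (1 : ℝ) < p := by exact_mod_cast hp.out.one_lt
  have h2 := zpow_right_injective₀ (by linarith) h1.ne' h
  push_cast at h2
  have h3 : (m : ℤ) ∣ 1 := ⟨b.valuation - k, by linarith⟩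
  have h4 := Int.le_of_dvd one_pos h3
  omega

/-- **Local points which do not lift.** -/
theorem kum (K : Type) [Field K] [NumberField K] (f h : MvPolynomial (Fin 2) K) {m : ℕ} (hm : 2 ≤ m)
    (x0 : Fin 2 → AlgebraicClosure K) (i : Fin 2) (hx0 : aeval x0 h = 0)
    (hx1 : aeval x0 (pderiv i h) ≠ 0) (hx2 : aeval x0 f ≠ 0) (S : Finset ℕ) :
    ∃ (l : ℕ) (_ : Fact l.Prime), l ∉ S ∧ ∃ (σ : K →+* ℚ_[l]) (P : (Fin 2 → ℚ_[l]) × ℚ_[l]),
      P.2 ^ 2 = eval P.1 (map σ f) ∧ P.2 ≠ 0 ∧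
        P ∉ closure {Q | ∃ t : ℚ_[l], t ^ m = eval Q.1 (map σ h)} := by
  classical
  have hch : CharZero (AlgebraicClosure K) := charZero_of_injective_algebraMap
    (algebraMap K (AlgebraicClosure K)).injective
  obtain ⟨w0, hw0⟩ := IsAlgClosed.exists_pow_nat_eq (aeval x0 f) (n := 2) (by norm_num)
  -- a square root which excludes the primes of `S`
  obtain ⟨c, hc⟩ : ∃ c : ℕ, c = ∏ p ∈ S.filter Nat.Prime, p := ⟨_, rfl⟩
  obtain ⟨s, hs2⟩ := IsAlgClosed.exists_pow_nat_eq (c : AlgebraicClosure K) (n := 2) (by norm_num)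
  obtain ⟨M, hM⟩ : ∃ M : IntermediateField K (AlgebraicClosure K),
    M = IntermediateField.adjoin K (insert w0 (insert s (Set.range x0))) := ⟨_, rfl⟩
  have hfd : FiniteDimensional K M := by
    rw [hM]
    have : Finite (insert w0 (insert s (Set.range x0)) : Set (AlgebraicClosure K)) :=
      Set.finite_coe_iff.2 (((Set.finite_range x0).insert s).insert w0)
    exact IntermediateField.finiteDimensional_adjoin fun x _ =>
      (Algebra.IsAlgebraic.isAlgebraic (R := K) x).isIntegral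
  have hMx : ∀ j, x0 j ∈ M := fun j => by
    rw [hM]
    exact IntermediateField.subset_adjoin _ _
      (Set.mem_insert_of_mem _ (Set.mem_insert_of_mem _ ⟨j, rfl⟩))
  have hMs : s ∈ M := by
    rw [hM]; exact IntermediateField.subset_adjoin _ _ (Set.mem_insert_of_mem _ (Set.mem_insert _ _))
  have hMw : w0 ∈ M := by rw [hM]; exact IntermediateField.subset_adjoin _ _ (Set.mem_insert _ _)
  have hnf : NumberField M :=
    { to_charZero := charZero_of_injective_algebraMap (algebraMap K M).injective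
      to_finiteDimensional := FiniteDimensional.trans ℚ K M }
  obtain ⟨l, hl, ⟨θ⟩⟩ := Pool.Agent.Y742.GG.exists_emb_fg M (Pool.Agent.Y742.GG.fg_of_numberField M)
  have hlS : l ∉ S := by
    intro hlS
    have h1 : θ ⟨s, hMs⟩ ^ 2 = ((c : ℕ) : ℚ_[l]) := by
      rw [← map_pow, ← map_natCast θ c]
      congr 1
      exact Subtype.ext (by rw [SubmonoidClass.coe_pow]; simpa using hs2)
    have h2 : ‖((c : ℕ) : ℚ_[l])‖ = ‖((l : ℚ_[l]) ^ (2 * 0 + 1))‖ := by
      have h3 : c = l * ∏ p ∈ (S.filter Nat.Prime).erase l, p := by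
        rw [hc, Finset.mul_prod_erase (S.filter Nat.Prime) (fun p => p)
          (Finset.mem_filter.2 ⟨hlS, hl.out⟩)]
      have h4 : ‖((∏ p ∈ (S.filter Nat.Prime).erase l, p : ℕ) : ℚ_[l])‖ = 1 := by
        rw [Padic.norm_natCast_eq_one_iff]
        refine Nat.Coprime.prod_right fun p hp => ?_
        rw [Finset.mem_erase, Finset.mem_filter] at hp
        exact (Nat.coprime_primes hl.out hp.2.2).2 (Ne.symm hp.1)
      rw [h3, Nat.cast_mul, norm_mul, h4, mul_one]
      norm_num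
    exact not_sq (by rw [h1, h2])
  -- the point over `ℚ_l`
  obtain ⟨σ, hσ⟩ : ∃ σ : K →+* ℚ_[l], σ = θ.comp (algebraMap K M) := ⟨_, rfl⟩
  obtain ⟨z2, hz2⟩ : ∃ z2 : Fin 2 → ℚ_[l], z2 = fun j => θ ⟨x0 j, hMx j⟩ := ⟨_, rfl⟩
  have hval : ∀ g : MvPolynomial (Fin 2) K, ∀ c : M, (c : AlgebraicClosure K) = aeval x0 g →
      eval z2 (map σ g) = θ c := by
    intro g c hc
    have h1 : c = aeval (fun j => (⟨x0 j, hMx j⟩ : M)) g := by
      apply (algebraMap M (AlgebraicClosure K)).injective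
      have h2 := (MvPolynomial.aeval_algebraMap_apply (AlgebraicClosure K)
        (fun j => (⟨x0 j, hMx j⟩ : M)) g).symm
      exact hc.trans h2.symm
    rw [h1, eval_map, hσ, hz2, aeval_def]
    exact (eval₂_comp_left θ (algebraMap K M) (fun j => (⟨x0 j, hMx j⟩ : M)) g).symm
  have hmemM : ∀ g : MvPolynomial (Fin 2) K, aeval x0 g ∈ M := by
    intro g
    have h2 := MvPolynomial.aeval_algebraMap_apply (AlgebraicClosure K)
      (fun j => (⟨x0 j, hMx j⟩ : M)) g
    have h3 : aeval x0 g = algebraMap M (AlgebraicClosure K)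
        (aeval (fun j => (⟨x0 j, hMx j⟩ : M)) g) := h2
    rw [h3]
    exact Subtype.coe_prop _
  have hz2h : eval z2 (map σ h) = 0 := by
    rw [hval h 0 (by rw [hx0]; rfl), map_zero]
  have hz2d : eval z2 (pderiv i (map σ h)) ≠ 0 := by
    rw [pderiv_map, hval (pderiv i h) ⟨_, hmemM _⟩ rfl, Ne, map_eq_zero]
    intro h'
    exact hx1 (congrArg Subtype.val h')
  have hw2 : (θ ⟨w0, hMw⟩) ^ 2 = eval z2 (map σ f) := by
    rw [hval f ⟨_, hmemM f⟩ rfl, ← map_pow]
    congr 1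
    exact Subtype.ext (by rw [SubmonoidClass.coe_pow]; exact hw0)
  have hw2' : θ ⟨w0, hMw⟩ ≠ 0 := by
    rw [Ne, map_eq_zero]
    intro h'
    have h'' : w0 = 0 := congrArg Subtype.val h'
    rw [h'', zero_pow two_ne_zero] at hw0
    exact hx2 hw0.symm
  -- points near `z2` lift to the double cover
  obtain ⟨η1, hη1, hsq⟩ := sq_near hw2' (norm_pos_iff.2 hw2')
  have hcf : Continuous fun y : Fin 2 → ℚ_[l] => eval y (map σ f) := MvPolynomial.continuous_eval _
  obtain ⟨η2, hη2, hη2'⟩ := Metric.continuous_iff.1 hcf z2 η1 hη1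
  -- the value of `h`
  obtain ⟨q, hq⟩ : ∃ q : Polynomial ℚ_[l], q = lin z2 i (map σ h) := ⟨_, rfl⟩
  have hq0 : q.eval (z2 i) = 0 := by
    rw [hq, eval_lin, Function.update_eq_self, hz2h]
  have hq1 : (Polynomial.derivative q).eval (z2 i) ≠ 0 := by
    rw [hq, derivative_lin, eval_lin, Function.update_eq_self]
    exact hz2d
  have hstrict := Polynomial.hasStrictDerivAt q (z2 i)
  have hmap := hstrict.map_nhds_eq hq1
  rw [hq0] at hmap
  have hrange : (fun x => Polynomial.eval x q) '' Metric.ball (z2 i) η2 ∈ 𝓝 (0 : ℚ_[l]) := by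
    rw [← hmap]
    exact Filter.image_mem_map (Metric.ball_mem_nhds _ hη2)
  obtain ⟨ρ, hρ, hball⟩ := Metric.mem_nhds_iff.1 hrange
  have hlim : Tendsto (fun k : ℕ => ‖((l : ℚ_[l]) ^ (m * k + 1))‖) atTop (𝓝 0) := by
    have h1 : ‖(l : ℚ_[l])‖ < 1 := Padic.norm_p_lt_one
    have h2 : Tendsto (fun n : ℕ => ‖(l : ℚ_[l])‖ ^ n) atTop (𝓝 0) :=
      tendsto_pow_atTop_nhds_zero_of_lt_one (norm_nonneg _) h1
    have h3 : Tendsto (fun k : ℕ => m * k + 1) atTop atTop :=
      tendsto_atTop_mono (fun k => by simp only [id]; nlinarith) tendsto_id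
    refine (h2.comp h3).congr fun k => ?_
    rw [Function.comp_apply, norm_pow]
  obtain ⟨k, hk⟩ := (hlim.eventually (gt_mem_nhds hρ)).exists
  obtain ⟨u, huB, hu⟩ := hball (by
    rw [Metric.mem_ball, dist_zero_right]
    exact hk : ((l : ℚ_[l]) ^ (m * k + 1)) ∈ Metric.ball 0 ρ)
  simp only at hu
  obtain ⟨y, hy⟩ : ∃ y : Fin 2 → ℚ_[l], y = Function.update z2 i u := ⟨_, rfl⟩
  have hyh : eval y (map σ h) = (l : ℚ_[l]) ^ (m * k + 1) := by rw [hy, ← eval_lin, ← hq, hu]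
  have hyd : dist y z2 < η2 := by
    rw [dist_pi_lt_iff hη2]
    intro j
    by_cases hj : j = i
    · subst hj
      rw [hy, Function.update_self]
      exact huB
    · rw [hy, Function.update_of_ne hj, dist_self]
      exact hη2
  obtain ⟨w1, hw1, hw1n⟩ := hsq (eval y (map σ f)) (by
    have := hη2' y hyd
    rwa [dist_eq_norm, ← hw2] at this)
  have hw10 : w1 ≠ 0 := by
    rintro rfl
    rw [zero_sub, norm_neg] at hw1n
    exact lt_irrefl _ hw1n
  have hl0 : (l : ℚ_[l]) ≠ 0 := by exact_mod_cast hl.out.ne_zero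
  have hpos : 0 < ‖((l : ℚ_[l]) ^ (m * k + 1))‖ := norm_pos_iff.2 (pow_ne_zero _ hl0)
  refine ⟨l, hl, hlS, σ, (y, w1), hw1, hw10, fun hmem => ?_⟩
  have hcont : Continuous fun Q : (Fin 2 → ℚ_[l]) × ℚ_[l] => eval Q.1 (map σ h) :=
    (MvPolynomial.continuous_eval (map σ h)).comp continuous_fst
  obtain ⟨Q, hQ, t, ht⟩ := mem_closure_iff_nhds.1 hmem
    {Q | dist (eval Q.1 (map σ h)) (eval y (map σ h)) < ‖((l : ℚ_[l]) ^ (m * k + 1))‖}
    (hcont.continuousAt.preimage_mem_nhds (Metric.ball_mem_nhds _ hpos))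
  have h2 : dist (eval Q.1 (map σ h)) (eval y (map σ h)) < ‖((l : ℚ_[l]) ^ (m * k + 1))‖ := hQ
  rw [← ht, hyh, dist_eq_norm] at h2
  have h4 : ‖t ^ m‖ = ‖((l : ℚ_[l]) ^ (m * k + 1))‖ := by
    by_contra hne
    have h5 := Padic.add_eq_max_of_ne (q := t ^ m - (l : ℚ_[l]) ^ (m * k + 1))
      (r := (l : ℚ_[l]) ^ (m * k + 1)) h2.ne
    rw [sub_add_cancel, max_eq_right h2.le] at h5
    exact hne h5
  exact not_pow hm h4

/-- an injective choice -/
theorem exists_inj {r : ℕ} (Q : Fin r → ℕ → Prop) (h : ∀ i, ∀ S : Finset ℕ, ∃ l, l ∉ S ∧ Q i l) :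
    ∃ p : Fin r → ℕ, Function.Injective p ∧ ∀ i, Q i (p i) := by
  classical
  induction r with
  | zero => exact ⟨fun i => i.elim0, fun i => i.elim0, fun i => i.elim0⟩
  | succ r ih =>
    obtain ⟨p, hp, hQ⟩ := ih (fun i => Q i.succ) fun i => h i.succ
    obtain ⟨l, hl, hlQ⟩ := h 0 (Finset.univ.image p)
    refine ⟨Fin.cons l p, ?_, ?_⟩
    · rw [Fin.cons_injective_iff]
      refine ⟨fun hmem => hl ?_, hp⟩
      obtain ⟨j, hj⟩ := hmem
      exact Finset.mem_image.2 ⟨j, Finset.mem_univ _, hj⟩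
    · intro i
      refine Fin.cases ?_ (fun j => ?_) i
      · exact hlQ
      · exact hQ j

end Pool.Agent.U899.QA
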