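import Pool.Agent.U899.QA.Nsq

/-!
# A smooth polynomial of degree `(4, …, 4)` takes values which are not squares near the points of some
`ℚ_ℓ`, in all dimensions (helper899)
-/

set_option autoImplicit false

open MvPolynomial Pool.Agent.Y720.MZ Filter Topology

namespace Pool.Agent.U899.QA

open Pool.Agent.Q35.TT Pool.Agent.Q35.TB
open Pool.Agent.Q224.TT

/-- a smooth zero over the algebraic closure -/
theorem smooth_zero (K : Type) [Field K] [CharZero K] {n : ℕ} (hn : 0 < n) (f : MvPolynomial (Fin n) K)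
    (hf : ∀ j, f.degreeOf j ≤ 4) (hs : SmoothN f) :
    ∃ (y : Fin n → AlgebraicClosure K) (l : Fin n), aeval y f = 0 ∧ aeval y (pderiv l f) ≠ 0 := by
  have : Infinite K := CharZero.infinite K
  obtain ⟨i, hi⟩ : ∃ i, (Lam i f).natDegree ≠ 0 := by
    by_contra hcon
    push Not at hcon
    refine no_inf' f hf hs Finset.univ (fun _ => 0) (i := ⟨0, hn⟩) (Finset.mem_univ _) ?_
      (fun k hk => absurd (Finset.mem_univ k) hk)
    have e : res Finset.univ (fun _ => 0) f = f := by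
      apply MvPolynomial.funext
      intro y
      rw [eval_res]
      congr 1
      exact congrArg _ (mix_eq fun k hk => absurd (Finset.mem_univ k) hk)
    rw [e, hcon]
    norm_num
  obtain ⟨y, hy⟩ := exists_zero' f i hi
  by_contra hcon
  push Not at hcon
  exact no_aff f hf hs y hy (fun l => hcon y l hy)

/-- **Values which are not squares.** -/
theorem nsqN (K : Type) [Field K] [NumberField K] {n : ℕ} (hn : 0 < n) (f : MvPolynomial (Fin n) K)
    (hf : ∀ j, f.degreeOf j ≤ 4) (hs : SmoothN f) (S : Finset ℕ) :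
    ∃ (l : ℕ) (_ : Fact l.Prime), l ∉ S ∧ ∃ (σ : K →+* ℚ_[l]) (y : Fin n → ℚ_[l]) (δ : ℝ), 0 < δ ∧
      ∀ z : Fin n → K, (∀ j, ‖σ (z j) - y j‖ < δ) → ¬ IsSquare (eval z f) := by
  classical
  obtain ⟨x0, i, hx0, hx1⟩ := smooth_zero K hn f hf hs
  have hch : CharZero (AlgebraicClosure K) := charZero_of_injective_algebraMap
    (algebraMap K (AlgebraicClosure K)).injective
  -- a square root which excludes the primes of `S`
  obtain ⟨m, hm⟩ : ∃ m : ℕ, m = ∏ p ∈ S.filter Nat.Prime, p := ⟨_, rfl⟩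
  obtain ⟨s, hs2⟩ := IsAlgClosed.exists_pow_nat_eq (m : AlgebraicClosure K) (n := 2) (by norm_num)
  obtain ⟨M, hM⟩ : ∃ M : IntermediateField K (AlgebraicClosure K),
    M = IntermediateField.adjoin K (insert s (Set.range x0)) := ⟨_, rfl⟩
  have hfd : FiniteDimensional K M := by
    rw [hM]
    have : Finite (insert s (Set.range x0) : Set (AlgebraicClosure K)) :=
      Set.finite_coe_iff.2 ((Set.finite_range x0).insert s)
    exact IntermediateField.finiteDimensional_adjoin fun x _ =>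
      (Algebra.IsAlgebraic.isAlgebraic (R := K) x).isIntegral
  have hMx : ∀ j, x0 j ∈ M := fun j => by
    rw [hM]; exact IntermediateField.subset_adjoin _ _ (Set.mem_insert_of_mem _ ⟨j, rfl⟩)
  have hMs : s ∈ M := by rw [hM]; exact IntermediateField.subset_adjoin _ _ (Set.mem_insert _ _)
  have hnf : NumberField M :=
    { to_charZero := charZero_of_injective_algebraMap (algebraMap K M).injective
      to_finiteDimensional := FiniteDimensional.trans ℚ K M }
  obtain ⟨l, hl, ⟨θ⟩⟩ := Pool.Agent.Y742.GG.exists_emb_fg M (Pool.Agent.Y742.GG.fg_of_numberField M)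
  have hlS : l ∉ S := by
    intro hlS
    have h1 : θ ⟨s, hMs⟩ ^ 2 = ((m : ℕ) : ℚ_[l]) := by
      rw [← map_pow, ← map_natCast θ m]
      congr 1
      exact Subtype.ext (by rw [SubmonoidClass.coe_pow]; simpa using hs2)
    have h2 : ‖((m : ℕ) : ℚ_[l])‖ = ‖((l : ℚ_[l]) ^ (2 * 0 + 1))‖ := by
      have h3 : m = l * ∏ p ∈ (S.filter Nat.Prime).erase l, p := by
        rw [hm, Finset.mul_prod_erase (S.filter Nat.Prime) (fun p => p)
          (Finset.mem_filter.2 ⟨hlS, hl.out⟩)]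
      have h4 : ‖((∏ p ∈ (S.filter Nat.Prime).erase l, p : ℕ) : ℚ_[l])‖ = 1 := by
        rw [Padic.norm_natCast_eq_one_iff]
        refine Nat.Coprime.prod_right fun p hp => ?_
        rw [Finset.mem_erase, Finset.mem_filter] at hp
        exact (Nat.coprime_primes hl.out hp.2.2).2 (Ne.symm hp.1)
      rw [h3, Nat.cast_mul, norm_mul, h4, mul_one]
      norm_num
    exact not_sq (by rw [h1, h2])
  -- the point over `ℚ_l`
  obtain ⟨σ, hσ⟩ : ∃ σ : K →+* ℚ_[l], σ = θ.comp (algebraMap K M) := ⟨_, rfl⟩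
  obtain ⟨g, hg⟩ : ∃ g : MvPolynomial (Fin n) ℚ_[l], g = map σ f := ⟨_, rfl⟩
  obtain ⟨z2, hz2⟩ : ∃ z2 : Fin n → ℚ_[l], z2 = fun j => θ ⟨x0 j, hMx j⟩ := ⟨_, rfl⟩
  have hval : ∀ h : MvPolynomial (Fin n) K, ∀ c : M, (c : AlgebraicClosure K) = aeval x0 h →
      eval z2 (map σ h) = θ c := by
    intro h c hc
    have h1 : c = aeval (fun j => (⟨x0 j, hMx j⟩ : M)) h := by
      apply (algebraMap M (AlgebraicClosure K)).injective
      have h2 := (MvPolynomial.aeval_algebraMap_apply (AlgebraicClosure K)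
        (fun j => (⟨x0 j, hMx j⟩ : M)) h).symm
      exact hc.trans h2.symm
    rw [h1, eval_map, hσ, hz2, aeval_def]
    exact (eval₂_comp_left θ (algebraMap K M) (fun j => (⟨x0 j, hMx j⟩ : M)) h).symm
  have hz2g : eval z2 g = 0 := by
    rw [hg, hval f 0 (by rw [hx0]; rfl), map_zero]
  have hz2d : eval z2 (pderiv i g) ≠ 0 := by
    rw [hg, pderiv_map]
    have hmem : aeval x0 (pderiv i f) ∈ M := by
      have h2 := MvPolynomial.aeval_algebraMap_apply (AlgebraicClosure K)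
        (fun j => (⟨x0 j, hMx j⟩ : M)) (pderiv i f)
      have h3 : aeval x0 (pderiv i f) = algebraMap M (AlgebraicClosure K)
          (aeval (fun j => (⟨x0 j, hMx j⟩ : M)) (pderiv i f)) := h2
      rw [h3]
      exact Subtype.coe_prop _
    rw [hval (pderiv i f) ⟨_, hmem⟩ rfl]
    rw [Ne, map_eq_zero]
    intro h
    exact hx1 (congrArg Subtype.val h)
  obtain ⟨q, hq⟩ : ∃ q : Polynomial ℚ_[l], q = lin z2 i g := ⟨_, rfl⟩
  have hq0 : q.eval (z2 i) = 0 := by
    rw [hq, eval_lin, Function.update_eq_self, hz2g]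
  have hq1 : (Polynomial.derivative q).eval (z2 i) ≠ 0 := by
    rw [hq, derivative_lin, eval_lin, Function.update_eq_self]
    exact hz2d
  have hstrict := Polynomial.hasStrictDerivAt q (z2 i)
  have hmap := hstrict.map_nhds_eq hq1
  rw [hq0] at hmap
  have hrange : Set.range (fun x => Polynomial.eval x q) ∈ 𝓝 (0 : ℚ_[l]) := by
    rw [← hmap]
    exact Filter.mem_map.2 (by
      have : (fun x => Polynomial.eval x q) ⁻¹'
        Set.range (fun x => Polynomial.eval x q) = Set.univ := by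
        ext x; simp
      rw [this]
      exact Filter.univ_mem)
  obtain ⟨ρ, hρ, hball⟩ := Metric.mem_nhds_iff.1 hrange
  have hlim : Tendsto (fun k : ℕ => ‖((l : ℚ_[l]) ^ (2 * k + 1))‖) atTop (𝓝 0) := by
    have h1 : ‖(l : ℚ_[l])‖ < 1 := Padic.norm_p_lt_one
    have h2 : Tendsto (fun n : ℕ => ‖(l : ℚ_[l])‖ ^ n) atTop (𝓝 0) :=
      tendsto_pow_atTop_nhds_zero_of_lt_one (norm_nonneg _) h1
    have h3 : Tendsto (fun k : ℕ => 2 * k + 1) atTop atTop :=
      tendsto_atTop_mono (fun k => by simp only [id]; omega) tendsto_id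
    refine (h2.comp h3).congr fun k => ?_
    rw [Function.comp_apply, norm_pow]
  obtain ⟨k, hk⟩ := (hlim.eventually (gt_mem_nhds hρ)).exists
  obtain ⟨u, hu⟩ := hball (by
    rw [Metric.mem_ball, dist_zero_right]
    exact hk : ((l : ℚ_[l]) ^ (2 * k + 1)) ∈ Metric.ball 0 ρ)
  simp only at hu
  obtain ⟨y, hy⟩ : ∃ y : Fin n → ℚ_[l], y = Function.update z2 i u := ⟨_, rfl⟩
  have hyg : eval y g = (l : ℚ_[l]) ^ (2 * k + 1) := by rw [hy, ← eval_lin, ← hq, hu]
  have hl0 : (l : ℚ_[l]) ≠ 0 := by exact_mod_cast hl.out.ne_zero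
  have hpos : 0 < ‖((l : ℚ_[l]) ^ (2 * k + 1))‖ := norm_pos_iff.2 (pow_ne_zero _ hl0)
  have hcont : Continuous fun x : Fin n → ℚ_[l] => eval x g := MvPolynomial.continuous_eval g
  obtain ⟨δ, hδ, hδ2⟩ := Metric.continuous_iff.1 hcont y _ hpos
  refine ⟨l, hl, hlS, σ, y, δ, hδ, fun z hz hsq => ?_⟩
  obtain ⟨b, hb⟩ := hsq
  have h1 : dist (fun j => σ (z j)) y < δ := (dist_pi_lt_iff hδ).2 fun j => by
    rw [dist_eq_norm]; exact hz j
  have h2 := hδ2 _ h1
  have h3 : eval (fun j => σ (z j)) g = σ b ^ 2 := by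
    rw [hg, eval_map, show (fun j => σ (z j)) = σ ∘ z from rfl, ← eval₂_comp σ z f, hb, map_mul, pow_two]
  rw [h3, hyg, dist_eq_norm] at h2
  have h4 : ‖σ b ^ 2‖ = ‖((l : ℚ_[l]) ^ (2 * k + 1))‖ := by
    by_contra hne
    have h5 := Padic.add_eq_max_of_ne (q := σ b ^ 2 - (l : ℚ_[l]) ^ (2 * k + 1))
      (r := (l : ℚ_[l]) ^ (2 * k + 1)) h2.ne
    rw [sub_add_cancel, max_eq_right h2.le] at h5
    exact hne h5
  exact not_sq h4

end Pool.Agent.U899.QA
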