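import Pool.Agent.U899.QA.ZarN

/-!
# Calabi–Yau double covers of `(ℙ¹)ⁿ`: potential density over quadratic extensions with prescribed
places, the theorem in all dimensions (helper899)
-/

set_option autoImplicit false

open MvPolynomial Pool.Agent.Y720.MZ Filter Topology

namespace Pool.Agent.U899.QA

open Pool.Agent.Q35.TT Pool.Agent.Q35.TB

section fam

variable {ι : Type} (l : ℕ) [hl : Fact l.Prime] (M : ι → Type) [iM : ∀ v, NontriviallyNormedField (M v)]

/-- the fields of a family and `ℚ_l` -/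
def Mo : Option ι → Type
  | none => ℚ_[l]
  | some v => M v

noncomputable instance : ∀ v, NontriviallyNormedField (Mo l M v)
  | none => inferInstanceAs (NontriviallyNormedField ℚ_[l])
  | some v => iM v

variable {K : Type} [Field K] {l M}

/-- the embeddings of a family and an embedding in `ℚ_l` -/
noncomputable def so (θ : K →+* ℚ_[l]) (σ : ∀ v, K →+* M v) : ∀ v, K →+* Mo l M v
  | none => θ
  | some v => σ v

theorem so_dn [CharZero K] [Finite ι] (θ : K →+* ℚ_[l]) (σ : ∀ v, K →+* M v) (hd : ∀ v, DenseRange (σ v))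
    (hne : Pairwise fun v v' => ¬ (pl (σ v)).IsEquiv (pl (σ v')))
    (hn : ∀ v, ¬ (pl (σ v)).IsEquiv (pl θ)) : Dn (so θ σ) := by
  refine dn_of (so θ σ) ?_ ?_
  · rintro (_ | v)
    · refine Metric.denseRange_iff.2 fun x r hr => ?_
      obtain ⟨q, hq⟩ := near_padic θ x hr
      exact ⟨(q : K), by rw [dist_comm, dist_eq_norm]; exact hq⟩
    · exact hd v
  · rintro (_ | v) (_ | v') h
    · exact absurd rfl h
    · exact fun h' => hn v' h'.symm
    · exact hn v
    · exact hne fun h' => h (congrArg some h')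

end fam

theorem dist_im {F : Type} [NormedField F] {n : ℕ} {P S : (Fin n → F) × F} {ε : ℝ} (hε : 0 < ε) :
    dist S P < ε ↔ (∀ j, ‖P.1 j - S.1 j‖ < ε) ∧ ‖P.2 - S.2‖ < ε := by
  rw [dist_comm, Prod.dist_eq, max_lt_iff, dist_pi_lt_iff hε]
  simp only [dist_eq_norm]

/-- **Potential density over quadratic extensions with prescribed places.** -/
theorem pdN (K : Type) [Field K] [NumberField K] {n : ℕ} (hn : 0 < n)
    (F : MvPolynomial (Fin n × Fin 2) K) (hF : Hom4 F) (hs : SmoothF F)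
    (hfs : n = 2 ∨ FinSpecF (ex (AlgebraicClosure K) F)) (e : Fin n → Fin 2)
    (ι : Type) [Finite ι] (M : ι → Type) [∀ v, NontriviallyNormedField (M v)]
    [∀ v, CompleteSpace (M v)] (σ : ∀ v, K →+* M v) (hd : ∀ v, DenseRange (σ v))
    (hne : Pairwise fun v v' => ¬ (pl (σ v)).IsEquiv (pl (σ v')))
    (S : ∀ v, (Fin n → M v) × M v) (hS : ∀ v, (S v).2 ^ 2 = eval (S v).1 (map (σ v) (ch F e)))
    (hS0 : ∀ v, (S v).2 ≠ 0) (N : Type) [Field N] [NumberField N] [Algebra K N] {ε : ℝ} (hε : 0 < ε) :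
    ∃ (L : Type) (_ : Field L) (_ : NumberField L) (_ : Algebra K L) (σ' : ∀ v, L →+* M v)
      (P : (Fin n → L) × L), Module.finrank K L = 2 ∧ (∀ v, (σ' v).comp (algebraMap K L) = σ v) ∧
      IsEmpty (L →ₐ[K] N) ∧ P.2 ^ 2 = eval P.1 (ex L (ch F e)) ∧
      (∀ v, dist (S v) ((fun j => σ' v (P.1 j)), σ' v P.2) < ε) ∧
      ∀ (M' : Type) [NontriviallyNormedField M'] [CompleteSpace M'] (θ : L →+* M'), DenseRange θ →
        DenseNearN θ (ex L (ch F e)) P := by
  classical
  obtain ⟨A, hA, hz⟩ := zdN K hn F hF hs hfs e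
  obtain ⟨hf, hsn, -⟩ := Pool.Agent.Q182.TT.CHF.chf K n F hF e
  have hch : ∀ v, CharZero (M v) := fun v => charZero_of_injective_ringHom (σ v).injective
  have hFN : FiniteDimensional K N := FiniteDimensional.right ℚ K N
  obtain ⟨h1, h2, -⟩ := (exf2 K N n F hF).2.2.2.2 (ch F e) hf
  obtain ⟨l, hl, hlS, θ, y, δ, hδ, hns0⟩ :=
    nsqN N hn (ex N (ch F e)) h1 (h2.1 (hsn hs)) (fin_primes σ).toFinset
  obtain ⟨θ0, hθ0⟩ : ∃ θ0 : K →+* ℚ_[l], θ0 = θ.comp (algebraMap K N) := ⟨_, rfl⟩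
  have hnv : ∀ v, ¬ (pl (σ v)).IsEquiv (pl θ0) := fun v hv => hlS (by
    rw [Set.Finite.mem_toFinset]; exact ⟨hl, θ0, v, hv⟩)
  choose η hη hηl using fun v => lift_nearN (σ v) (ch F e) (hS0 v) (hS v) hε
  let ηf : Option ι → ℝ := fun v => v.elim δ fun v => min (η v) ε
  have hηf : ∀ v, 0 < ηf v := by
    rintro (_ | v)
    · exact hδ
    · exact lt_min (hη v) hε
  obtain ⟨v0, hv0⟩ := Finite.exists_min ηf
  have hzz : ∀ j : Fin n, ∃ x : K, x ∉ A j ∧ ∀ v, ‖so θ0 σ v x - (match v with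
      | none => y j
      | some v => (S v).1 j : Mo l M v)‖ < ηf v0 := fun j =>
    dn_avoid (so_dn θ0 σ hd hne hnv) none (hA j) _ (hηf v0)
  choose z hzA hz' using hzz
  have hzl : ∀ j, ‖θ (algebraMap K N (z j)) - y j‖ < δ := fun j => by
    have h := (hz' j none).trans_le (hv0 none)
    have h' : ‖θ0 (z j) - y j‖ < δ := h
    rw [hθ0] at h'
    exact h'
  have hzv : ∀ v j, ‖σ v (z j) - (S v).1 j‖ < min (η v) ε := fun v j =>
    (hz' j (some v)).trans_le (hv0 (some v))
  have hnsN : ¬ IsSquare (algebraMap K N (eval z (ch F e))) := by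
    have h := hns0 (fun j => algebraMap K N (z j)) hzl
    have e' : eval (fun j => algebraMap K N (z j)) (ex N (ch F e)) = algebraMap K N (eval z (ch F e)) := by
      rw [ex, eval_map, show (fun j => algebraMap K N (z j)) = algebraMap K N ∘ z from rfl,
        ← eval₂_comp (algebraMap K N) z (ch F e)]
    rwa [e'] at h
  have hnsK : ¬ IsSquare (eval z (ch F e)) := fun h => hnsN (h.map (algebraMap K N))
  obtain ⟨L, iL, iN, iA, w, hfr, hw, hext⟩ := exists_quad K _ hnsK
  have hw0 : w ≠ 0 := by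
    rintro rfl
    rw [zero_pow two_ne_zero, eq_comm, map_eq_zero] at hw
    exact hnsK (by rw [hw]; exact ⟨0, by simp⟩)
  have hon : w ^ 2 = eval (fun j => algebraMap K L (z j)) (ex L (ch F e)) := by
    rw [hw, ex, eval_map, show (fun j => algebraMap K L (z j)) = algebraMap K L ∘ z from rfl,
      ← eval₂_comp (algebraMap K L) z (ch F e)]
  choose w' hw' hw'n using fun v => hηl v z fun j => (hzv v j).trans_le (min_le_left _ _)
  choose σ' hσ' hσw using fun v => hext (M v) (σ v) (w' v) (hw' v)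
  refine ⟨L, iL, iN, iA, σ', (fun j => algebraMap K L (z j), w), hfr, hσ', ⟨fun ψ => ?_⟩, hon,
    fun v => ?_, fun M' _ _ θ' hθ' => hz z hzA L w hw0 hw M' θ' hθ'⟩
  · apply hnsN
    refine ⟨ψ w, ?_⟩
    rw [← map_mul, ← pow_two, hw, AlgHom.commutes]
  · rw [dist_im hε]
    refine ⟨fun j => ?_, ?_⟩
    · have h1 : σ' v (algebraMap K L (z j)) = σ v (z j) := by rw [← hσ' v]; rfl
      change ‖σ' v (algebraMap K L (z j)) - (S v).1 j‖ < ε
      rw [h1]
      exact (hzv v j).trans_le (min_le_right _ _)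
    · change ‖σ' v w - (S v).2‖ < ε
      rw [hσw]
      exact hw'n v

end Pool.Agent.U899.QA
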