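import Pool.Agent.U899.QA.Nsq
import Pool.Agent.Y720.WL.Nt
import Pool.Agent.Y720.WA.Wap3

/-!
# K3 double covers: approximation of local points over quadratic extensions (helper899)
-/

set_option autoImplicit false

open MvPolynomial Pool.Agent.Y720.MZ Filter Topology

namespace Pool.Agent.U899.QA

open Pool.Agent.Q35.TT Pool.Agent.Q35.TB Pool.Agent.Results.MP_ed3816_nt.OpenAwayFromTorsion
open Pool.Agent.Q222.TT.Opn

/-- square roots near a nonzero element -/
theorem sq_near {L : Type} [NontriviallyNormedField L] [CompleteSpace L] [CharZero L] {w : L}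
    (hw : w ≠ 0) {ε : ℝ} (hε : 0 < ε) :
    ∃ δ : ℝ, 0 < δ ∧ ∀ c : L, ‖c - w ^ 2‖ < δ → ∃ w' : L, w' ^ 2 = c ∧ ‖w' - w‖ < ε := by
  have h := Polynomial.hasStrictDerivAt (Polynomial.X ^ 2 : Polynomial L) w
  have h2 : Polynomial.eval w (Polynomial.derivative (Polynomial.X ^ 2 : Polynomial L)) ≠ 0 := by
    simp [hw]
  have h3 := h.map_nhds_eq h2
  have h4 : (fun x : L => Polynomial.eval x (Polynomial.X ^ 2 : Polynomial L)) '' Metric.ball w ε ∈
      𝓝 (Polynomial.eval w (Polynomial.X ^ 2 : Polynomial L)) := by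
    rw [← h3]
    exact Filter.image_mem_map (Metric.ball_mem_nhds w hε)
  obtain ⟨δ, hδ, h5⟩ := Metric.mem_nhds_iff.1 h4
  refine ⟨δ, hδ, fun c hc => ?_⟩
  obtain ⟨w', hw', h6⟩ := h5 (by
    rw [Metric.mem_ball, dist_eq_norm]
    simpa using hc : c ∈ Metric.ball _ δ)
  refine ⟨w', by simpa using h6, ?_⟩
  rw [Metric.mem_ball, dist_eq_norm] at hw'
  exact hw'

/-- points of the double cover over a local field, above the points near a given one -/
theorem lift_near {K : Type} [Field K] {L : Type} [NontriviallyNormedField L] [CompleteSpace L] [CharZero L]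
    (σ : K →+* L) (f : MvPolynomial (Fin 2) K) {x : Fin 2 → L} {w : L} (hw : w ≠ 0)
    (hon : w ^ 2 = eval x (map σ f)) {ε : ℝ} (hε : 0 < ε) :
    ∃ η : ℝ, 0 < η ∧ ∀ z : Fin 2 → K, (∀ j, ‖σ (z j) - x j‖ < η) →
      ∃ w' : L, w' ^ 2 = σ (eval z f) ∧ ‖w' - w‖ < ε := by
  obtain ⟨δ, hδ, h1⟩ := sq_near hw hε
  have hcont : Continuous fun y : Fin 2 → L => eval y (map σ f) := MvPolynomial.continuous_eval _
  obtain ⟨η, hη, h2⟩ := Metric.continuous_iff.1 hcont x δ hδ
  refine ⟨η, hη, fun z hz => ?_⟩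
  refine h1 _ ?_
  have h3 := h2 (fun j => σ (z j)) ((dist_pi_lt_iff hη).2 fun j => by rw [dist_eq_norm]; exact hz j)
  rw [dist_eq_norm, ← hon, eval_map, show (fun j => σ (z j)) = σ ∘ z from rfl, ← eval₂_comp σ z f] at h3
  exact h3

/-- weak approximation outside a finite set -/
theorem dn_avoid {K : Type} [Field K] {V : Type} [DecidableEq V] {L : V → Type}
    [∀ v, NontriviallyNormedField (L v)] {s : ∀ v, K →+* L v} (h : Dn s) (v0 : V) {A : Set K}
    (hA : A.Finite) (m : ∀ v, L v) {η : ℝ} (hη : 0 < η) :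
    ∃ x : K, x ∉ A ∧ ∀ v, ‖s v x - m v‖ < η := by
  -- a target in the ball which is not in the image of `A`
  have hinf : (Metric.ball (m v0) (η / 2)).Infinite := by
    have : (𝓝[≠] (m v0)).NeBot := NormedField.nhdsNE_neBot _
    exact infinite_of_mem_nhds (m v0) (Metric.ball_mem_nhds _ (half_pos hη))
  obtain ⟨y, hy, hyA⟩ := hinf.exists_notMem_finite (hA.image (s v0))
  have hcl : IsClosed (s v0 '' A) := (hA.image (s v0)).isClosed
  obtain ⟨δ, hδ, hball⟩ := Metric.isOpen_iff.1 hcl.isOpen_compl y hyA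
  obtain ⟨x, hx⟩ := h (Function.update m v0 y) (min δ (η / 2)) (lt_min hδ (half_pos hη))
  refine ⟨x, fun hxA => ?_, fun v => ?_⟩
  · have h1 := hx v0
    rw [Function.update_self] at h1
    have h2 : s v0 x ∈ Metric.ball y δ := by
      rw [Metric.mem_ball, dist_eq_norm]
      exact h1.trans_le (min_le_left _ _)
    exact hball h2 ⟨x, hxA, rfl⟩
  · by_cases hv : v = v0
    · subst hv
      have h1 := hx v
      rw [Function.update_self] at h1
      have h2 : ‖y - m v‖ < η / 2 := by
        rw [← dist_eq_norm]; exact hy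
      calc ‖s v x - m v‖ = ‖(s v x - y) + (y - m v)‖ := by congr 1; ring
        _ ≤ ‖s v x - y‖ + ‖y - m v‖ := norm_add_le _ _
        _ < η := by
          have := h1.trans_le (min_le_right _ _)
          linarith
    · have h1 := hx v
      rw [Function.update_of_ne hv] at h1
      have h2 := h1.trans_le (min_le_right _ _)
      linarith

/-- the quadratic extension -/
theorem exists_quad (K : Type) [Field K] [NumberField K] (c : K) (hc : ¬ IsSquare c) :
    ∃ (L : Type) (_ : Field L) (_ : NumberField L) (_ : Algebra K L) (w : L),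
      Module.finrank K L = 2 ∧ w ^ 2 = algebraMap K L c ∧
      ∀ (M : Type) [Field M] (σ : K →+* M) (w' : M), w' ^ 2 = σ c →
        ∃ σ' : L →+* M, σ'.comp (algebraMap K L) = σ ∧ σ' w = w' := by
  have hirr : Irreducible (Polynomial.X ^ 2 - Polynomial.C c : Polynomial K) :=
    X_pow_sub_C_irreducible_of_prime Nat.prime_two fun b hb => hc ⟨b, by rw [← hb, pow_two]⟩
  have hfact : Fact (Irreducible (Polynomial.X ^ 2 - Polynomial.C c : Polynomial K)) := ⟨hirr⟩
  have hfd : FiniteDimensional K (AdjoinRoot (Polynomial.X ^ 2 - Polynomial.C c : Polynomial K)) :=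
    (AdjoinRoot.powerBasis hirr.ne_zero).finite
  have hnf : NumberField (AdjoinRoot (Polynomial.X ^ 2 - Polynomial.C c : Polynomial K)) :=
    { to_charZero := charZero_of_injective_algebraMap (algebraMap K _).injective
      to_finiteDimensional := FiniteDimensional.trans ℚ K _ }
  refine ⟨AdjoinRoot (Polynomial.X ^ 2 - Polynomial.C c : Polynomial K), inferInstance, hnf, inferInstance,
    AdjoinRoot.root _, ?_, ?_, ?_⟩
  · rw [(AdjoinRoot.powerBasis hirr.ne_zero).finrank, AdjoinRoot.powerBasis_dim,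
      Polynomial.natDegree_X_pow_sub_C]
  · have h := AdjoinRoot.eval₂_root (Polynomial.X ^ 2 - Polynomial.C c : Polynomial K)
    rw [Polynomial.eval₂_sub, Polynomial.eval₂_pow, Polynomial.eval₂_X, Polynomial.eval₂_C, sub_eq_zero] at h
    exact h
  · intro M _ σ w' hw'
    have h0 : (Polynomial.X ^ 2 - Polynomial.C c : Polynomial K).eval₂ σ w' = 0 := by
      rw [Polynomial.eval₂_sub, Polynomial.eval₂_pow, Polynomial.eval₂_X, Polynomial.eval₂_C, hw', sub_self]
    refine ⟨AdjoinRoot.lift σ w' h0, ?_, AdjoinRoot.lift_root h0⟩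
    ext a
    exact AdjoinRoot.lift_of h0

end Pool.Agent.U899.QA
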