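import Pool.Agent.U899.QA.Zc
import Pool.Agent.U899.QA.Quad
import Pool.Agent.U199.RS.Semi

/-!
# K3 double covers over `ℚ`: real quadratic points are dense in components of the real points (helper899)
-/

set_option autoImplicit false

open MvPolynomial Pool.Agent.Y720.MZ Filter Topology

namespace Pool.Agent.U899.QA

open Pool.Agent.Q35.TT Pool.Agent.Q35.TB Pool.Agent.U199.RS Pool.Agent.TH729.SQ

theorem aeval_eq_eval_map {n : ℕ} (f : MvPolynomial (Fin n) ℚ) (x : Fin n → ℝ) :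
    (aeval x f : ℝ) = eval x (map (algebraMap ℚ ℝ) f) := by
  rw [eval_map, aeval_def]

theorem sign_of_sq {a b : ℝ} (h : a ^ 2 = b) :
    ∃ s : ℚ, s ^ 2 = 1 ∧ a = (s : ℝ) * √b := by
  rcases le_total 0 a with h1 | h1
  · exact ⟨1, one_pow 2, by rw [← h, Real.sqrt_sq h1]; simp⟩
  · exact ⟨-1, by norm_num, by rw [← h, ← neg_sq, Real.sqrt_sq (neg_nonneg.2 h1)]; simp⟩

/-- The set of the points over the number field `L` in the real points. -/
def Pts (L : Type) [Field L] [NumberField L] (τ : L →+* ℝ) (f : MvPolynomial (Fin 2) ℚ) :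
    Set ((Fin 2 → ℝ) × ℝ) :=
  {S | ∃ P : (Fin 2 → L) × L, P.2 ^ 2 = eval P.1 (map (algebraMap ℚ L) f) ∧
    S = ((fun j => τ (P.1 j)), τ P.2)}

/-- **The component of a rational point of the plane.** -/
theorem rc1 (F : MvPolynomial (Fin 2 × Fin 2) ℚ) (hF : Hom4 F) (hs : SmoothF F)
    (e : Fin 2 → Fin 2) :
    ∃ A : Fin 2 → Set ℚ, (∀ j, (A j).Finite) ∧ ∀ z : Fin 2 → ℚ, (∀ j, z j ∉ A j) →
      ∀ U : Set (Fin 2 → ℝ), IsPreconnected U → (fun k => ((z k : ℚ) : ℝ)) ∈ U →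
      (∀ x ∈ U, (0 : ℝ) < aeval x (ch F e)) →
      ∀ (L : Type) [Field L] [NumberField L] (τ : L →+* ℝ) (r : L),
        r ^ 2 = algebraMap ℚ L (eval z (ch F e)) →
        ∀ (x : Fin 2 → ℝ) (w : ℝ), x ∈ U → w ^ 2 = aeval x (ch F e) →
          (x, w) ∈ closure (Pts L τ (ch F e)) := by
  classical
  obtain ⟨hf, hsn, -, hsp1, hfn, -⟩ := Pool.Agent.Q182.TT.CHF.chf ℚ 2 F hF e
  have hfsK : FinSpec (ch F e) := by
    have h1 := fs_all hF hs (Or.inl rfl) ℚ
    have e : ex ℚ F = F := by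
      rw [ex, Algebra.algebraMap_self, MvPolynomial.map_id]
    rw [e] at h1
    exact hfn h1
  obtain ⟨E, hE, hRP⟩ := rb_base (ch F e) hf (hsn hs) hfsK
  refine ⟨fun j => (fun q : Set (Fin 2) × (Fin 2 → ℚ) => q.2 j) '' E, fun j => hE.image _,
    fun z hzA U hc hzU hpos L _ _ τ r hr x w2 hx hw2 => ?_⟩
  have hcast : ∀ y : Fin 2 → ℚ, (aeval (fun k => ((y k : ℚ) : ℝ)) (ch F e) : ℝ) =
      ((eval y (ch F e) : ℚ) : ℝ) := fun y => aeval_cast y (ch F e)
  have hfz : (0 : ℚ) < eval z (ch F e) := by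
    have h1 := hpos _ hzU
    rw [hcast] at h1
    exact_mod_cast h1
  -- the twist with a rational point over `z`
  obtain ⟨c, hc0⟩ : ∃ c : ℚ, c = (eval z (ch F e))⁻¹ := ⟨_, rfl⟩
  have hcpos : 0 < c := by rw [hc0]; exact inv_pos.2 hfz
  have hzS : z ∈ SS (C c * ch F e) :=
    ⟨1, one_ne_zero, by rw [map_mul, eval_C, hc0, inv_mul_cancel₀ hfz.ne', one_pow]⟩
  obtain ⟨q, hq, hzq, hR⟩ := hRP c hcpos.ne' z hzS
  have hq1 : ∀ k, k ∈ q.1 := by
    intro k
    by_contra hk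
    exact hzA k ⟨q, hq, (hzq k hk).symm⟩
  have hdense : U ⊆ closure (rl (SS (C c * ch F e))) := by
    refine conn_ss hE (hRP c hcpos.ne') hzS hzq hR hc (fun x hx => ⟨fun k hk => absurd (hq1 k) hk, ?_⟩)
      hzU
    rw [map_mul, algHom_C]
    exact mul_pos (by simpa using hcpos) (hpos x hx)
  have hx1 := hdense hx
  have hτq : ∀ a : ℚ, τ (algebraMap ℚ L a) = (a : ℝ) := fun a => by simp
  obtain ⟨s, hs2, hsw⟩ := sign_of_sq hw2
  obtain ⟨t, ht2, htr⟩ := sign_of_sq (a := τ r) (b := ((eval z (ch F e) : ℚ) : ℝ))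
    (by rw [← map_pow, hr, hτq])
  have hcont : Continuous fun y : Fin 2 → ℝ => ((y, (s : ℝ) * √(aeval y (ch F e))) :
      (Fin 2 → ℝ) × ℝ) := by
    refine continuous_id.prodMk (continuous_const.mul (Real.continuous_sqrt.comp ?_))
    have h1 : (fun y : Fin 2 → ℝ => (aeval y (ch F e) : ℝ)) =
        fun y => eval y (map (algebraMap ℚ ℝ) (ch F e)) :=
      funext fun y => aeval_eq_eval_map _ y
    rw [h1]
    exact MvPolynomial.continuous_eval _
  have h2 := image_closure_subset_closure_image hcont ⟨x, hx1, rfl⟩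
  rw [hsw]
  refine closure_mono ?_ h2
  rintro _ ⟨_, ⟨y, ⟨u, hu0, hu⟩, rfl⟩, rfl⟩
  rw [map_mul, eval_C] at hu
  have hfy : eval y (ch F e) = u ^ 2 * eval z (ch F e) := by
    rw [hu, hc0]
    field_simp
  refine ⟨(fun j => algebraMap ℚ L (y j), algebraMap ℚ L (s * t * |u|) * r), ?_, ?_⟩
  · change (algebraMap ℚ L (s * t * |u|) * r) ^ 2 = eval (fun j => algebraMap ℚ L (y j))
      (map (algebraMap ℚ L) (ch F e))
    rw [mul_pow, hr, ← map_pow, ← map_mul, mul_pow, mul_pow, hs2, ht2, one_mul, one_mul, sq_abs, ← hfy,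
      eval_map, show (fun j => algebraMap ℚ L (y j)) = algebraMap ℚ L ∘ y from rfl,
      ← eval₂_comp (algebraMap ℚ L) y (ch F e)]
  · refine Prod.ext (funext fun j => ?_) ?_
    · exact (hτq (y j)).symm
    · change (s : ℝ) * √(aeval (fun k => ((y k : ℚ) : ℝ)) (ch F e)) =
        τ (algebraMap ℚ L (s * t * |u|) * r)
      rw [map_mul, hτq, htr, hcast, hfy]
      push_cast
      rw [Real.sqrt_mul (sq_nonneg _), Real.sqrt_sq_eq_abs]
      have ht3 : (t : ℝ) ^ 2 = 1 := by exact_mod_cast ht2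
      linear_combination (-(s : ℝ) * |(u : ℝ)| * √((eval z (ch F e) : ℚ) : ℝ)) * ht3

/-- **Every component contains such points, over real quadratic fields outside `N`.** -/
theorem rc2 (F : MvPolynomial (Fin 2 × Fin 2) ℚ) (hF : Hom4 F) (hs : SmoothF F)
    (e : Fin 2 → Fin 2) (A : Fin 2 → Set ℚ) (hA : ∀ j, (A j).Finite) (U : Set (Fin 2 → ℝ))
    (hU : IsOpen U) (x0 : Fin 2 → ℝ) (hx0 : x0 ∈ U) (hpos : ∀ x ∈ U, (0 : ℝ) < aeval x (ch F e))
    (N : Type) [Field N] [NumberField N] :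
    ∃ (L : Type) (_ : Field L) (_ : NumberField L) (τ : L →+* ℝ) (r : L) (z : Fin 2 → ℚ),
      Module.finrank ℚ L = 2 ∧ IsEmpty (L →+* N) ∧ (∀ j, z j ∉ A j) ∧
      (fun k => ((z k : ℚ) : ℝ)) ∈ U ∧ r ^ 2 = algebraMap ℚ L (eval z (ch F e)) := by
  classical
  obtain ⟨δ, hδ, hball⟩ := Metric.isOpen_iff.1 hU x0 hx0
  obtain ⟨z, hzA, hns, hz⟩ := zex ℚ (by norm_num) F hF hs e Unit (fun _ => ℝ)
    (fun _ => algebraMap ℚ ℝ) (fun _ => Rat.denseRange_cast)
    (fun v v' h => absurd (Subsingleton.elim v v') h)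
    (fun _ => (x0, √(aeval x0 (ch F e))))
    (fun _ => by
      change (√(aeval x0 (ch F e))) ^ 2 = eval x0 (map (algebraMap ℚ ℝ) (ch F e))
      rw [Real.sq_sqrt (hpos x0 hx0).le, aeval_eq_eval_map])
    (fun _ => (Real.sqrt_pos.2 (hpos x0 hx0)).ne') N hδ hA
  obtain ⟨w', hw', hwz, -⟩ := hz ()
  have hzU : (fun k => ((z k : ℚ) : ℝ)) ∈ U := by
    refine hball ?_
    rw [Metric.mem_ball, dist_pi_lt_iff hδ]
    exact fun j => by rw [dist_eq_norm]; exact hwz j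
  have hcast : ∀ y : Fin 2 → ℚ, (aeval (fun k => ((y k : ℚ) : ℝ)) (ch F e) : ℝ) =
      ((eval y (ch F e) : ℚ) : ℝ) := fun y => aeval_cast y (ch F e)
  have hfz : (0 : ℚ) < eval z (ch F e) := by
    have h1 := hpos _ hzU
    rw [hcast] at h1
    exact_mod_cast h1
  have hnsq : ¬ IsSquare (eval z (ch F e)) := fun h => hns (h.map (algebraMap ℚ N))
  obtain ⟨L, iL, iN, iA, w, hfr, hw, hext⟩ := exists_quad ℚ (eval z (ch F e)) hnsq
  obtain ⟨τ, hτ, hτw⟩ := hext ℝ (algebraMap ℚ ℝ) (√((eval z (ch F e) : ℚ) : ℝ)) (by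
    rw [Real.sq_sqrt (by exact_mod_cast hfz.le)]; rfl)
  have hAlg : algebraMap ℚ L = (@algebraMap ℚ L _ _ DivisionRing.toRatAlgebra) :=
    RingHom.ext fun a => by simp
  refine ⟨L, iL, iN, τ, w, z, ?_, ⟨fun ψ => ?_⟩, hzA, hzU, by rw [hw, hAlg]⟩
  · rw [← hfr]
    congr 1
    exact congrArg (fun a : Algebra ℚ L => a.toModule) (Subsingleton.elim _ _)
  · apply hns
    refine ⟨ψ w, ?_⟩
    rw [← map_mul, ← pow_two, hw]
    have : ψ (algebraMap ℚ L (eval z (ch F e))) = algebraMap ℚ N (eval z (ch F e)) := by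
      simp
    rw [this]

end Pool.Agent.U899.QA
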