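import Pool.Agent.U899.QA.Uni2
import Pool.Agent.U899.QA.Hil

/-!
# K3 double covers: Zariski density of the rational points near a point at several places (helper899)
-/

set_option autoImplicit false

open MvPolynomial Pool.Agent.Y720.MZ Filter Topology

namespace Pool.Agent.U899.QA

open Pool.Agent.Q35.TT Pool.Agent.Q35.TB Pool.Agent.Results.MP_ed3816_nt.OpenAwayFromTorsion

/-- a polynomial which vanishes on the local points near a point off the branch divisor vanishes on the
variety -/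
theorem dvd_of_local {L M : Type} [Field L] [CharZero L] [NontriviallyNormedField M] [CompleteSpace M]
    (σ : L →+* M) (f : MvPolynomial (Fin 2) L) (hf : ∀ j, f.degreeOf j ≤ 4) (hs : SmoothN f)
    {P : (Fin 2 → L) × L} (hw : P.2 ≠ 0) (hP : P.2 ^ 2 = eval P.1 f)
    {V : Set ((Fin 2 → M) × M)} (hV : V ∈ 𝓝 (image σ P)) (g : MvPolynomial (Option (Fin 2)) L)
    (hg : ∀ S ∈ V, S.2 ^ 2 = eval S.1 (map σ f) →
      eval (fun o : Option (Fin 2) => o.elim S.2 S.1) (map σ g) = 0) :
    (X none ^ 2 - rename some f) ∣ g := by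
  classical
  have hchM : CharZero M := charZero_of_injective_ringHom σ.injective
  have hinfL : Infinite L := CharZero.infinite L
  obtain ⟨A, B, Q, hAB⟩ := decomp_eq f g
  obtain ⟨ε, hε, hball⟩ := Metric.mem_nhds_iff.1 hV
  have hw' : σ P.2 ≠ 0 := (map_ne_zero σ).2 hw
  obtain ⟨η, hη, hsq⟩ := sq_near hw' hε
  have hPM : (σ P.2) ^ 2 = eval (fun j => σ (P.1 j)) (map σ f) := by
    rw [← map_pow, hP, eval_map, show (fun j => σ (P.1 j)) = σ ∘ P.1 from rfl,
      ← eval₂_comp σ P.1 f]
  have hcf : Continuous fun y : Fin 2 → M => eval y (map σ f) := MvPolynomial.continuous_eval _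
  obtain ⟨δ, hδ, hδ'⟩ := Metric.continuous_iff.1 hcf (fun j => σ (P.1 j)) η hη
  have hr : 0 < min δ ε := lt_min hδ hε
  have hzero : MvPolynomial.map σ (A ^ 2 - f * B ^ 2) = 0 := by
    refine MvPolynomial.funext_set (fun j => Metric.ball (σ (P.1 j)) (min δ ε)) (fun j => ?_) ?_
    · have : (𝓝[≠] (σ (P.1 j))).NeBot := NormedField.nhdsNE_neBot _
      exact infinite_of_mem_nhds _ (Metric.ball_mem_nhds _ hr)
    · intro x hx
      have hx1 : dist x (fun j => σ (P.1 j)) < min δ ε :=
        (dist_pi_lt_iff hr).2 fun j => hx j (Set.mem_univ j)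
      obtain ⟨w1, hw1, hw1n⟩ := hsq (eval x (map σ f)) (by
        have := hδ' x (hx1.trans_le (min_le_left _ _))
        rwa [dist_eq_norm, ← hPM] at this)
      have hmem : (x, w1) ∈ V := by
        apply hball
        rw [Metric.mem_ball, Prod.dist_eq, max_lt_iff]
        exact ⟨hx1.trans_le (min_le_right _ _), by rw [dist_eq_norm]; exact hw1n⟩
      have h1 := hg (x, w1) hmem hw1
      simp only at h1
      have e1 : ∀ C : MvPolynomial (Fin 2) L,
          eval (fun o : Option (Fin 2) => o.elim w1 x) (MvPolynomial.map σ (rename some C)) = eval x (MvPolynomial.map σ C) := by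
        intro C
        rw [map_rename]
        exact eval_opt (MvPolynomial.map σ C) w1 x
      rw [hAB, map_add, map_add, map_add, map_add, map_mul, map_mul, map_mul, map_mul, map_sub, map_sub,
        map_pow, map_pow, map_X, eval_X, e1, e1, e1] at h1
      simp only [Option.elim_none] at h1
      rw [hw1, sub_self, zero_mul, add_zero] at h1
      rw [map_zero, map_sub, map_sub, map_mul, map_mul, map_pow, map_pow, map_pow, map_pow, ← hw1,
        eq_neg_of_add_eq_zero_left h1]
      ring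
  have hAB0 : A ^ 2 = f * B ^ 2 := by
    rw [← sub_eq_zero]
    exact map_injective σ σ.injective (by rw [hzero, map_zero])
  have hz : eval P.1 f ≠ 0 := by
    rw [← hP]
    exact pow_ne_zero 2 hw
  have hall := Pool.Agent.Q224.TT.nsq L 2 f hf hs Finset.univ P.1 ⟨0, Finset.mem_univ _⟩ hz
    (fun k hk => absurd (Finset.mem_univ k) hk) A B (fun y _ => by
      rw [← map_pow, hAB0, map_mul, map_pow])
  have hA : A = 0 := MvPolynomial.funext fun y => by
    rw [(hall y fun k hk => absurd (Finset.mem_univ k) hk).1, map_zero]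
  have hB : B = 0 := MvPolynomial.funext fun y => by
    rw [(hall y fun k hk => absurd (Finset.mem_univ k) hk).2, map_zero]
  refine ⟨Q, ?_⟩
  rw [hAB, hA, hB, map_zero]
  ring

/-- the rational points in a neighbourhood of `P` are Zariski dense if the closure of the set of the
rational points is a neighbourhood of `P` -/
theorem zar_abs {L M Y : Type} [Field L] [CharZero L] [NontriviallyNormedField M] [CompleteSpace M]
    [TopologicalSpace Y] (σ : L →+* M) (f : MvPolynomial (Fin 2) L) (hf : ∀ j, f.degreeOf j ≤ 4)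
    (hs : SmoothN f) {P : (Fin 2 → L) × L} (hw : P.2 ≠ 0) (hP : P.2 ^ 2 = eval P.1 f)
    (em : (Fin 2 → L) × L → Y) (π : Y → (Fin 2 → M) × M) (hπ : Continuous π)
    (hem : ∀ Q, π (em Q) = image σ Q) (i : (Fin 2 → M) × M → Y) (hi : Continuous i)
    (hiP : i (image σ P) = em P) (hπi : ∀ S, π (i S) = S) {U V : Set Y} (hU : U ∈ 𝓝 (em P))
    (hV : V ∈ 𝓝 (em P))
    (hcl : ∀ S, S.2 ^ 2 = eval S.1 (map σ f) → i S ∈ V →
      i S ∈ closure {T | ∃ Q : (Fin 2 → L) × L, Q.2 ^ 2 = eval Q.1 f ∧ T = em Q})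
    (g : MvPolynomial (Option (Fin 2)) L)
    (hg : ∀ Q : (Fin 2 → L) × L, Q.2 ^ 2 = eval Q.1 f → em Q ∈ U →
      eval (fun o => o.elim Q.2 Q.1) g = 0) : (X none ^ 2 - rename some f) ∣ g := by
  have hW : i ⁻¹' (interior U ∩ V) ∈ 𝓝 (image σ P) := by
    refine hi.continuousAt.preimage_mem_nhds ?_
    rw [hiP]
    exact Filter.inter_mem (interior_mem_nhds.2 hU) hV
  refine dvd_of_local σ f hf hs hw hP hW g fun S hS hSon => ?_
  by_contra hne
  have hcont : Continuous fun T : Y =>
      eval (fun o : Option (Fin 2) => o.elim (π T).2 (π T).1) (map σ g) := by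
    refine (MvPolynomial.continuous_eval _).comp (continuous_pi fun o => ?_)
    rcases o with _ | j
    · exact continuous_snd.comp hπ
    · exact (continuous_apply j).comp (continuous_fst.comp hπ)
  have hopen : IsOpen ({T : Y | eval (fun o : Option (Fin 2) => o.elim (π T).2 (π T).1) (map σ g) ≠ 0} ∩
      interior U) := (isOpen_ne_fun hcont continuous_const).inter isOpen_interior
  have hmem : i S ∈ ({T : Y | eval (fun o : Option (Fin 2) => o.elim (π T).2 (π T).1) (map σ g) ≠ 0} ∩
      interior U) := by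
    refine ⟨?_, hS.1⟩
    change eval (fun o : Option (Fin 2) => o.elim (π (i S)).2 (π (i S)).1) (map σ g) ≠ 0
    rw [hπi]
    exact hne
  obtain ⟨T, hT, Q, hQ, rfl⟩ := mem_closure_iff.1 (hcl S hSon hS.2) _ hopen hmem
  have h1 : eval (fun o : Option (Fin 2) => o.elim (π (em Q)).2 (π (em Q)).1) (map σ g) ≠ 0 := hT.1
  rw [hem, eval_im] at h1
  refine h1 ?_
  rw [hg Q hQ (interior_subset hT.2), map_zero]

theorem on_im {L M : Type} [Field L] [Field M] (σ : L →+* M) (f : MvPolynomial (Fin 2) L)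
    {Q : (Fin 2 → L) × L} (hQ : Q.2 ^ 2 = eval Q.1 f) : OnCover (map σ f) (image σ Q) := by
  change (σ Q.2) ^ 2 = eval (fun j => σ (Q.1 j)) (map σ f)
  rw [← map_pow, hQ, eval_map, show (fun j => σ (Q.1 j)) = σ ∘ Q.1 from rfl,
    ← eval₂_comp σ Q.1 f]

/-- `p`-adic places -/
theorem sim_p {L : Type} [Field L] [CharZero L] (f : MvPolynomial (Fin 2) L)
    (hf : ∀ j, f.degreeOf j ≤ 4) (hs : SmoothN f) {P : (Fin 2 → L) × L} (hw : P.2 ≠ 0)
    (hP : P.2 ^ 2 = eval P.1 f) {ι : Type} [Nonempty ι] {p : ι → ℕ} [∀ v, Fact (p v).Prime]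
    (σ : ∀ v, L →+* ℚ_[p v]) (hop : OpenAt f σ (fun v => image (σ v) P))
    {U : Set (∀ v, (Fin 2 → ℚ_[p v]) × ℚ_[p v])} (hU : U ∈ 𝓝 (fun v => image (σ v) P))
    (g : MvPolynomial (Option (Fin 2)) L)
    (hg : ∀ Q : (Fin 2 → L) × L, Q.2 ^ 2 = eval Q.1 f → (fun v => image (σ v) Q) ∈ U →
      eval (fun o => o.elim Q.2 Q.1) g = 0) : (X none ^ 2 - rename some f) ∣ g := by
  classical
  obtain ⟨V, hV, hVc⟩ := hop
  obtain ⟨v0⟩ := ‹Nonempty ι›
  refine zar_abs (σ v0) f hf hs hw hP (fun Q v => image (σ v) Q) (fun S => S v0) (continuous_apply v0)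
    (fun Q => rfl) (fun S => Function.update (fun v => image (σ v) P) v0 S)
    (continuous_const.update v0 continuous_id) ?_ (fun S => Function.update_self _ _ _) hU hV
    (fun S hS hSV => ?_) g hg
  · exact Function.update_eq_self v0 (fun v => image (σ v) P)
  · refine hVc _ hSV fun v => ?_
    by_cases hv : v = v0
    · subst hv
      simp only [Function.update_self]
      exact hS
    · simp only [Function.update_of_ne hv]
      exact on_im (σ v) f hP

/-- with a real place -/
theorem sim_r {L : Type} [Field L] [CharZero L] (f : MvPolynomial (Fin 2) L)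
    (hf : ∀ j, f.degreeOf j ≤ 4) (hs : SmoothN f) {P : (Fin 2 → L) × L} (hw : P.2 ≠ 0)
    (hP : P.2 ^ 2 = eval P.1 f) {ι : Type} {p : ι → ℕ} [∀ v, Fact (p v).Prime]
    (σ : ∀ v, L →+* ℚ_[p v]) (τ : L →+* ℝ)
    (hop : OpenAtReal f σ τ (image τ P, fun v => image (σ v) P))
    {U : Set (((Fin 2 → ℝ) × ℝ) × ∀ v, (Fin 2 → ℚ_[p v]) × ℚ_[p v])}
    (hU : U ∈ 𝓝 (image τ P, fun v => image (σ v) P)) (g : MvPolynomial (Option (Fin 2)) L)
    (hg : ∀ Q : (Fin 2 → L) × L, Q.2 ^ 2 = eval Q.1 f → (image τ Q, fun v => image (σ v) Q) ∈ U →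
      eval (fun o => o.elim Q.2 Q.1) g = 0) : (X none ^ 2 - rename some f) ∣ g := by
  classical
  obtain ⟨V, hV, hVc⟩ := hop
  refine zar_abs τ f hf hs hw hP (fun Q => (image τ Q, fun v => image (σ v) Q)) Prod.fst continuous_fst
    (fun Q => rfl) (fun S => (S, fun v => image (σ v) P)) (continuous_id.prodMk continuous_const) rfl
    (fun S => rfl) hU hV (fun S hS hSV => ?_) g hg
  exact hVc _ hSV hS fun v => on_im (σ v) f hP

end Pool.Agent.U899.QA
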