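import Pool.Agent.U899.QA.Kum

/-!
# K3 double covers: approximation by points which do not lift to covers (helper899)
-/

set_option autoImplicit false

open MvPolynomial Pool.Agent.Y720.MZ Filter Topology

namespace Pool.Agent.U899.QA

open Pool.Agent.Q35.TT Pool.Agent.Q35.TB Pool.Agent.Results.MP_ed3816_nt.OpenAwayFromTorsion
open Pool.Agent.Q222.TT.Opn

/-- The closure of the set of the points in `R` is a neighbourhood of `P`. -/
def OpenR {L : Type} [Field L] (f : MvPolynomial (Fin 2) L) (R : Set ((Fin 2 → L) × L)) {ι : Type}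
    {p : ι → ℕ} [∀ v, Fact (p v).Prime] (σ : ∀ v, L →+* ℚ_[p v]) (P : (Fin 2 → L) × L) : Prop :=
  ∃ U ∈ 𝓝 (fun v => image (σ v) P), ∀ S ∈ U, (∀ v, OnCover (map (σ v) f) (S v)) →
    S ∈ closure {S | ∃ Q, OnCover f Q ∧ Q ∈ R ∧ S = fun v => image (σ v) Q}

/-- monotonicity -/
theorem openR_mono {L : Type} [Field L] (f : MvPolynomial (Fin 2) L) {R R' : Set ((Fin 2 → L) × L)}
    (hR : R ⊆ R') {ι : Type} {p : ι → ℕ} [∀ v, Fact (p v).Prime] (σ : ∀ v, L →+* ℚ_[p v])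
    (P : (Fin 2 → L) × L) (h : OpenR f R σ P) : OpenR f R' σ P := by
  obtain ⟨U, hU, hUc⟩ := h
  refine ⟨U, hU, fun S hS hSon => closure_mono ?_ (hUc S hS hSon)⟩
  rintro _ ⟨Q, hQ, hQR, rfl⟩
  exact ⟨Q, hQ, hR hQR, rfl⟩

/-- only the points in an open neighbourhood count -/
theorem openR_of {L : Type} [Field L] (f : MvPolynomial (Fin 2) L) {ι : Type} [Finite ι] {p : ι → ℕ}
    [∀ v, Fact (p v).Prime] (σ : ∀ v, L →+* ℚ_[p v]) (P : (Fin 2 → L) × L)
    (hop : OpenAt f σ (fun v => image (σ v) P)) (B : ∀ v, Set ((Fin 2 → ℚ_[p v]) × ℚ_[p v]))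
    (hB : ∀ v, image (σ v) P ∉ closure (B v)) :
    OpenR f {Q | ∀ v, image (σ v) Q ∉ B v} σ P := by
  obtain ⟨U, hU, hUc⟩ := hop
  have hopen : IsOpen (Set.univ.pi fun v => (closure (B v))ᶜ) :=
    isOpen_set_pi Set.finite_univ fun v _ => isClosed_closure.isOpen_compl
  refine ⟨U ∩ Set.univ.pi fun v => (closure (B v))ᶜ,
    Filter.inter_mem hU (hopen.mem_nhds fun v _ => hB v), fun S hS hSon => ?_⟩
  rw [mem_closure_iff]
  intro O hO hSO
  obtain ⟨T, hT, Q, hQ, rfl⟩ := mem_closure_iff.1 (hUc S hS.1 hSon) _ (hO.inter hopen) ⟨hSO, hS.2⟩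
  exact ⟨_, hT.1, Q, hQ, fun v hv => hT.2 v (Set.mem_univ v) (subset_closure hv), rfl⟩

/-- **Points over quadratic extensions which avoid local conditions: approximation.** -/
theorem hilA (K : Type) [Field K] [NumberField K] (F : MvPolynomial (Fin 2 × Fin 2) K) (hF : Hom4 F)
    (hs : SmoothF F) (e : Fin 2 → Fin 2) (ι : Type) [Finite ι] [Nonempty ι] (p : ι → ℕ)
    [hp : ∀ v, Fact (p v).Prime] (hinj : Function.Injective p) (σ : ∀ v, K →+* ℚ_[p v])
    (B : ∀ v, Set ((Fin 2 → ℚ_[p v]) × ℚ_[p v]))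
    (S : ∀ v, (Fin 2 → ℚ_[p v]) × ℚ_[p v])
    (hS : ∀ v, (S v).2 ^ 2 = eval (S v).1 (map (σ v) (ch F e))) (hS0 : ∀ v, (S v).2 ≠ 0)
    (hSB : ∀ v, S v ∉ closure (B v)) (N : Type) [Field N] [NumberField N] [Algebra K N] {η : ℝ}
    (hη : 0 < η) :
    ∃ (L : Type) (_ : Field L) (_ : NumberField L) (_ : Algebra K L) (σ' : ∀ v, L →+* ℚ_[p v])
      (P : (Fin 2 → L) × L),
      Module.finrank K L = 2 ∧ IsEmpty (L →ₐ[K] N) ∧ (∀ v, (σ' v).comp (algebraMap K L) = σ v) ∧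
      OnCover (ex L (ch F e)) P ∧ (∀ v, dist (S v) (image (σ' v) P) < η) ∧
      OpenR (ex L (ch F e)) {Q | ∀ v, image (σ' v) Q ∉ B v} σ' P := by
  classical
  obtain ⟨hf, hsn, -⟩ := Pool.Agent.Q182.TT.CHF.chf K 2 F hF e
  obtain ⟨A, hA, hcore⟩ := core K (ch F e) hf (hsn hs)
  have hball : ∀ v, ∃ ε : ℝ, 0 < ε ∧ ε ≤ η ∧ Metric.ball (S v) ε ⊆ (closure (B v))ᶜ := by
    intro v
    have h1 : (closure (B v))ᶜ ∈ 𝓝 (S v) := isClosed_closure.isOpen_compl.mem_nhds (hSB v)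
    obtain ⟨ε, hε, h2⟩ := Metric.mem_nhds_iff.1 h1
    exact ⟨min ε η, lt_min hε hη, min_le_right _ _,
      (Metric.ball_subset_ball (min_le_left _ _)).trans h2⟩
  choose ε hε hεη hεB using hball
  obtain ⟨v0, hv0⟩ := Finite.exists_min ε
  have hd : ∀ v, DenseRange (σ v) := by
    intro v
    refine Metric.denseRange_iff.2 fun x r hr => ?_
    obtain ⟨q, hq⟩ := near_padic (σ v) x hr
    exact ⟨(q : K), by rw [dist_comm, dist_eq_norm]; exact hq⟩
  have hne : Pairwise fun v v' => ¬ (pl (σ v)).IsEquiv (pl (σ v')) := by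
    intro v v' hv h
    have h1 : pl (σ v') (p v : K) < 1 := by
      rw [← h.lt_one_iff, pl_apply, map_natCast]
      exact Padic.norm_p_lt_one
    rw [pl_apply, map_natCast] at h1
    have h2 : ‖((p v : ℕ) : ℚ_[p v'])‖ = 1 := by
      rw [Padic.norm_natCast_eq_one_iff]
      exact (Nat.coprime_primes (hp v').out (hp v).out).2 fun h3 => hv (hinj h3.symm)
    rw [h2] at h1
    exact lt_irrefl _ h1
  obtain ⟨z, hzA, hnsN, hzv⟩ := zex K (by norm_num) F hF hs e ι (fun v => ℚ_[p v]) σ hd hne S hS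
    hS0 N (hε v0) (A := A) hA
  have hnsK : ¬ IsSquare (eval z (ch F e)) := fun h => hnsN (h.map (algebraMap K N))
  obtain ⟨L, iL, iN, iA, w, hfr, hw0, hon, hext, hop⟩ := hcore z hzA hnsK
  have hw : w ^ 2 = algebraMap K L (eval z (ch F e)) := by
    have h1 : w ^ 2 = eval (fun j => algebraMap K L (z j)) (ex L (ch F e)) := hon
    rw [h1, ex, eval_map, show (fun j => algebraMap K L (z j)) = algebraMap K L ∘ z from rfl,
      ← eval₂_comp (algebraMap K L) z (ch F e)]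
  choose w' hw' hwz hwn using hzv
  choose σ' hσ' hσw using fun v => hext ℚ_[p v] (σ v) (w' v) (hw' v)
  have hdist : ∀ v, dist (S v) (image (σ' v) (fun j => algebraMap K L (z j), w)) < ε v0 := by
    intro v
    rw [dist_im (hε v0)]
    refine ⟨fun j => ?_, ?_⟩
    · have h1 : σ' v (algebraMap K L (z j)) = σ v (z j) := by rw [← hσ' v]; rfl
      change ‖σ' v (algebraMap K L (z j)) - (S v).1 j‖ < ε v0
      rw [h1]
      exact hwz v j
    · change ‖σ' v w - (S v).2‖ < ε v0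
      rw [hσw]
      exact hwn v
  refine ⟨L, iL, iN, iA, σ', (fun j => algebraMap K L (z j), w), hfr, ⟨fun ψ => ?_⟩, hσ', hon,
    fun v => (hdist v).trans_le (hεη v0), ?_⟩
  · apply hnsN
    refine ⟨ψ w, ?_⟩
    rw [← map_mul, ← pow_two, hw, AlgHom.commutes]
  · refine openR_of _ σ' _ (hop ι p hinj σ').1 B fun v => hεB v ?_
    rw [Metric.mem_ball, dist_comm]
    exact (hdist v).trans_le (hv0 v)

/-- from more places to fewer -/
theorem openR_left {L : Type} [Field L] (f : MvPolynomial (Fin 2) L) {R R' : Set ((Fin 2 → L) × L)}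
    (hR : R ⊆ R') {ι κ : Type} {p : ι ⊕ κ → ℕ} [hp : ∀ v, Fact (p v).Prime] {P : (Fin 2 → L) × L}
    (hP : OnCover f P) (s : ∀ v : ι ⊕ κ, L →+* ℚ_[p v]) (h : OpenR f R s P) :
    OpenR (p := fun v => p (Sum.inl v)) f R' (fun v => s (Sum.inl v)) P := by
  classical
  obtain ⟨U, hU, hUc⟩ := h
  let G : (∀ v : ι, (Fin 2 → ℚ_[p (Sum.inl v)]) × ℚ_[p (Sum.inl v)]) →
      ∀ v : ι ⊕ κ, (Fin 2 → ℚ_[p v]) × ℚ_[p v] := fun S v => match v with
    | Sum.inl v => S v
    | Sum.inr v => image (s (Sum.inr v)) P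
  have hG : Continuous G := by
    refine continuous_pi fun v => ?_
    rcases v with v | v
    · exact continuous_apply v
    · exact continuous_const
  have hGP : G (fun v => image (s (Sum.inl v)) P) = fun v => image (s v) P := by
    funext v
    rcases v with v | v <;> rfl
  refine ⟨G ⁻¹' U, hG.continuousAt.preimage_mem_nhds (by rw [hGP]; exact hU), fun S hS hSon => ?_⟩
  have h1 := hUc (G S) hS fun v => by
    rcases v with v | v
    · exact hSon v
    · change (s (Sum.inr v) P.2) ^ 2 = eval (fun j => s (Sum.inr v) (P.1 j)) (map (s (Sum.inr v)) f)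
      have hP' : P.2 ^ 2 = eval P.1 f := hP
      rw [← map_pow, hP', eval_map,
        show (fun j => s (Sum.inr v) (P.1 j)) = s (Sum.inr v) ∘ P.1 from rfl,
        ← eval₂_comp (s (Sum.inr v)) P.1 f]
  have hcont : Continuous fun T : ∀ v : ι ⊕ κ, (Fin 2 → ℚ_[p v]) × ℚ_[p v] =>
      fun v : ι => T (Sum.inl v) := continuous_pi fun v => continuous_apply (Sum.inl v)
  have h2 := image_closure_subset_closure_image hcont ⟨G S, h1, rfl⟩
  refine closure_mono ?_ h2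
  rintro _ ⟨_, ⟨Q, hQ, hQR, rfl⟩, rfl⟩
  exact ⟨Q, hQ, hR hQR, rfl⟩

/-- **Approximation by points over quadratic extensions which do not lift to Kummer covers.** -/
theorem kumA (K : Type) [Field K] [NumberField K] (F : MvPolynomial (Fin 2 × Fin 2) K) (hF : Hom4 F)
    (hs : SmoothF F) (e : Fin 2 → Fin 2) (ι : Type) [Finite ι] (p : ι → ℕ)
    [hp : ∀ v, Fact (p v).Prime] (hinj : Function.Injective p) (σ : ∀ v, K →+* ℚ_[p v])
    (S : ∀ v, (Fin 2 → ℚ_[p v]) × ℚ_[p v])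
    (hS : ∀ v, (S v).2 ^ 2 = eval (S v).1 (map (σ v) (ch F e))) (hS0 : ∀ v, (S v).2 ≠ 0)
    (r : ℕ) (m : Fin (r + 1) → ℕ) (h : Fin (r + 1) → MvPolynomial (Fin 2) K)
    (hh : ∀ i, 2 ≤ m i ∧ ∃ x : Fin 2 → AlgebraicClosure K, aeval x (h i) = 0 ∧
      (∃ j, aeval x (pderiv j (h i)) ≠ 0) ∧ aeval x (ch F e) ≠ 0)
    (N : Type) [Field N] [NumberField N] [Algebra K N] {η : ℝ} (hη : 0 < η) :
    ∃ (L : Type) (_ : Field L) (_ : NumberField L) (_ : Algebra K L) (σ' : ∀ v, L →+* ℚ_[p v])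
      (P : (Fin 2 → L) × L),
      Module.finrank K L = 2 ∧ IsEmpty (L →ₐ[K] N) ∧ (∀ v, (σ' v).comp (algebraMap K L) = σ v) ∧
      OnCover (ex L (ch F e)) P ∧ (∀ v, dist (S v) (image (σ' v) P) < η) ∧
      OpenR (ex L (ch F e)) {Q | ∀ i, ¬ ∃ u : L, u ^ m i = eval Q.1 (map (algebraMap K L) (h i))}
        σ' P := by
  classical
  have hfin : (Set.range p).Finite := Set.finite_range p
  have hQ : ∀ i, ∀ Z : Finset ℕ, ∃ l, l ∉ Z ∧ (l ∉ Set.range p ∧ ∃ (_ : Fact l.Prime) (σ : K →+* ℚ_[l])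
      (P : (Fin 2 → ℚ_[l]) × ℚ_[l]), P.2 ^ 2 = eval P.1 (map σ (ch F e)) ∧
        P.2 ≠ 0 ∧ P ∉ closure {Q | ∃ t : ℚ_[l], t ^ m i = eval Q.1 (map σ (h i))}) := by
    intro i Z
    obtain ⟨hm, x, hx0, ⟨j, hx1⟩, hx2⟩ := hh i
    obtain ⟨l, hl, hlS, σ, P, k1, k2, k3⟩ := kum K (ch F e) (h i) hm x j hx0 hx1 hx2
      (Z ∪ hfin.toFinset)
    rw [Finset.mem_union, not_or, Set.Finite.mem_toFinset] at hlS
    exact ⟨l, hlS.1, hlS.2, hl, σ, P, k1, k2, k3⟩
  obtain ⟨q, hq, hqQ⟩ := exists_inj _ hQ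
  choose hqr hqf τ S' hS' hS0' hSB' using hqQ
  let P' : ι ⊕ Fin (r + 1) → ℕ := fun v => match v with
    | Sum.inl v => p v
    | Sum.inr v => q v
  have hP' : ∀ v, Fact (P' v).Prime := fun v => match v with
    | Sum.inl v => hp v
    | Sum.inr v => hqf v
  let sP : ∀ v, K →+* ℚ_[P' v] := fun v => match v with
    | Sum.inl v => σ v
    | Sum.inr v => τ v
  let SP : ∀ v, (Fin 2 → ℚ_[P' v]) × ℚ_[P' v] := fun v => match v with
    | Sum.inl v => S v
    | Sum.inr v => S' v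
  let B : ∀ v, Set ((Fin 2 → ℚ_[P' v]) × ℚ_[P' v]) := fun v => match v with
    | Sum.inl v => ∅
    | Sum.inr v => {Q | ∃ t : ℚ_[q v], t ^ m v = eval Q.1 (map (τ v) (h v))}
  have hinj' : Function.Injective P' := by
    rintro (v | v) (v' | v') hv
    · exact congrArg Sum.inl (hinj hv)
    · exact absurd ⟨v, hv⟩ (hqr v')
    · exact absurd ⟨v', hv.symm⟩ (hqr v)
    · exact congrArg Sum.inr (hq hv)
  obtain ⟨L, iL, iN, iA, s, P, h3, h4, h5, h6, h7, h8⟩ := hilA K F hF hs e (ι ⊕ Fin (r + 1)) P' hinj'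
    sP B SP (fun v => by rcases v with v | v; exacts [hS v, hS' v])
    (fun v => by rcases v with v | v; exacts [hS0 v, hS0' v])
    (fun v => by
      rcases v with v | v
      · change S v ∉ closure ∅
        rw [closure_empty]
        exact Set.notMem_empty _
      · exact hSB' v) N hη
  refine ⟨L, iL, iN, iA, fun v => s (Sum.inl v), P, h3, h4, fun v => h5 (Sum.inl v), h6,
    fun v => h7 (Sum.inl v), ?_⟩
  have hR : {Q : (Fin 2 → L) × L | ∀ v, image (s v) Q ∉ B v} ⊆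
      {Q | ∀ i, ¬ ∃ u : L, u ^ m i = eval Q.1 (map (algebraMap K L) (h i))} := by
    intro Q hQB i hu
    obtain ⟨u, hu⟩ := hu
    refine hQB (Sum.inr i) ⟨s (Sum.inr i) u, ?_⟩
    have h9 : (s (Sum.inr i)).comp (algebraMap K L) = τ i := h5 (Sum.inr i)
    have h10 : s (Sum.inr i) (u ^ m i) = eval (image (s (Sum.inr i)) Q).1 (map (τ i) (h i)) := by
      rw [hu, eval_map, ← h9, eval₂_comp_left (s (Sum.inr i)) (algebraMap K L) Q.1 (h i), eval_map]
      rfl
    rw [← h10, map_pow]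
  exact openR_left (ex L (ch F e)) hR h6 s h8

end Pool.Agent.U899.QA
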