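import Pool.Agent.U899.QA.Zc

/-!
# K3 double covers: classes of the rational points, uniformly in all extensions of bounded degree
(helper899)
-/

set_option autoImplicit false

open MvPolynomial Pool.Agent.Y720.MZ

namespace Pool.Agent.U899.QA

open Pool.Agent.Q35.TT Pool.Agent.Q35.TB
open Pool.Agent.Q35.ZC (near_two Near Odds step2)
open Pool.Agent.Results.MP_ed3816_nt.OpenAwayFromTorsion (GenusOne NotSpecial line)

/-- **Classes near rational points, uniformly in the extensions of bounded degree.** -/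
theorem uk3 (K : Type) [Field K] [NumberField K] (f : MvPolynomial (Fin 2) K)
    (hf : ∀ j, f.degreeOf j ≤ 4) (hs : SmoothN f) :
    ∃ E : Fin 2 → Set (AlgebraicClosure K), (∀ j, (E j).Finite) ∧
      ∀ D : ℕ, ∃ T : Set (Fin 2 → AlgebraicClosure K), T.Finite ∧
      ∀ (L : Type) [Field L] [NumberField L] [Algebra K L], Module.finrank K L ≤ D →
        ∀ e : L, e ≠ 0 → ∀ (φ : L →ₐ[K] AlgebraicClosure K) (z : Fin 2 → L) (w : L), w ≠ 0 →
        w ^ 2 = eval z (C e * ex L f) → (fun j => φ (z j)) ∉ T → (∀ j, φ (z j) ∉ E j) →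
        Near (C e * ex L f) (Odds (C e * ex L f) (z, w)) (z, w) := by
  have hch : CharZero (AlgebraicClosure K) := charZero_of_injective_algebraMap
    (algebraMap K (AlgebraicClosure K)).injective
  refine ⟨fun j => {c | ∃ i, i ≠ j ∧ ∃ x : Fin 2 → AlgebraicClosure K, x j = c ∧
    ¬ (GenusOne (line (ex (AlgebraicClosure K) f) x i) ∧
      NotSpecial (ex (AlgebraicClosure K) f) x i j)}, fun j => ?_, fun D => ?_⟩
  · have h4 : (⋃ i ∈ {i : Fin 2 | i ≠ j}, {c | ∃ x : Fin 2 → AlgebraicClosure K, x j = c ∧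
        ¬ (GenusOne (line (ex (AlgebraicClosure K) f) x i) ∧
          NotSpecial (ex (AlgebraicClosure K) f) x i j)}).Finite :=
      (Set.toFinite _).biUnion fun i hi => bad_finite K hf hs (AlgebraicClosure K)
        (algebraMap K (AlgebraicClosure K)) i j hi
    refine h4.subset ?_
    rintro c ⟨i, hi, x, hx, hn⟩
    exact Set.mem_iUnion₂.2 ⟨i, hi, x, hx, hn⟩
  obtain ⟨T, hT, hTT⟩ := taf2 K 2 f hf hs D
  refine ⟨T, hT, ?_⟩
  intro L _ _ _ hL e he φ z w hw hon hzT hzE
  have hFK : FiniteDimensional K L := FiniteDimensional.right ℚ K L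
  have hg : ∀ j, (ex L f).degreeOf j ≤ 4 :=
    ((exf2 K L 2 0 (fun m hm => by simp at hm)).2.2.2.2 f hf).1
  obtain ⟨i, hi⟩ : ∃ i, ¬ TorN (ex L f) z i := by
    by_contra hcon
    push Not at hcon
    exact hzT (hTT L hL z hcon φ)
  have hGN : ∀ i j, i ≠ j → GenusOne (line (ex L f) z i) ∧ NotSpecial (ex L f) z i j := by
    intro i j hij
    refine good_down hf hs φ z i j hij ?_
    by_contra hcon
    exact hzE j ⟨i, hij, fun k => φ (z k), rfl, hcon⟩
  have hG : GenusOne (line (ex L f) z i) := by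
    rcases (show i = 0 ∨ i = 1 by omega) with rfl | rfl
    · exact (hGN 0 1 (by decide)).1
    · exact (hGN 1 0 (by decide)).1
  exact near_two step2 tws2 hg he hw hon hi hG fun j hj => (hGN i j (Ne.symm hj)).2

end Pool.Agent.U899.QA
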