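import Pool.Agent.U899.QA.Uni

/-!
# K3 double covers: the closure of the rational points is open at almost all points, uniformly in all
extensions of bounded degree, with lines which do not depend on the degree (helper899)
-/

set_option autoImplicit false

open MvPolynomial Pool.Agent.Y720.MZ

namespace Pool.Agent.U899.QA

open Pool.Agent.Q35.TT Pool.Agent.Q35.TB Pool.Agent.Results.MP_ed3816_nt.OpenAwayFromTorsion
open Pool.Agent.Q222.TT.Opn
open Pool.Agent.Q190.TT (lc_smul bq_smul)

/-- **Openness, uniformly in the extensions of bounded degree.** -/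
theorem uopn' (K : Type) [Field K] [NumberField K] (f : MvPolynomial (Fin 2) K)
    (hf : ∀ j, f.degreeOf j ≤ 4) (hs : SmoothN f) :
    ∃ E : Fin 2 → Set (AlgebraicClosure K), (∀ j, (E j).Finite) ∧
      ∀ D : ℕ, ∃ T : Set (Fin 2 → AlgebraicClosure K), T.Finite ∧
      ∀ (L : Type) [Field L] [NumberField L] [Algebra K L], Module.finrank K L ≤ D →
        ∀ e : L, e ≠ 0 → ∀ (φ : L →ₐ[K] AlgebraicClosure K) (z : Fin 2 → L) (w : L), w ≠ 0 →
        w ^ 2 = eval z (C e * ex L f) → (fun j => φ (z j)) ∉ T → (∀ j, φ (z j) ∉ E j) →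
        ∀ (ι : Type) [Finite ι] [Nonempty ι] (p : ι → ℕ)
          [∀ v, Fact (p v).Prime], Function.Injective p → ∀ σ : ∀ v, L →+* ℚ_[p v],
            OpenAt (C e * ex L f) σ (fun v => image (σ v) (z, w)) ∧ ∀ τ : L →+* ℝ,
              OpenAtReal (C e * ex L f) σ τ (image τ (z, w), fun v => image (σ v) (z, w)) := by
  have hch : CharZero (AlgebraicClosure K) := charZero_of_injective_algebraMap
    (algebraMap K (AlgebraicClosure K)).injective
  refine ⟨fun j => {c | ∃ i, i ≠ j ∧ ∃ x : Fin 2 → AlgebraicClosure K, x j = c ∧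
    ¬ (GenusOne (line (ex (AlgebraicClosure K) f) x i) ∧
      NotSpecial (ex (AlgebraicClosure K) f) x i j)}, fun j => ?_, fun D => ?_⟩
  · have h4 : (⋃ i ∈ {i : Fin 2 | i ≠ j}, {c | ∃ x : Fin 2 → AlgebraicClosure K, x j = c ∧
        ¬ (GenusOne (line (ex (AlgebraicClosure K) f) x i) ∧
          NotSpecial (ex (AlgebraicClosure K) f) x i j)}).Finite :=
      (Set.toFinite _).biUnion fun i hi => bad_finite K hf hs (AlgebraicClosure K)
        (algebraMap K (AlgebraicClosure K)) i j hi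
    refine h4.subset ?_
    rintro c ⟨i, hi, x, hx, hn⟩
    exact Set.mem_iUnion₂.2 ⟨i, hi, x, hx, hn⟩
  obtain ⟨T, hT, hTT⟩ := taf2 K 2 f hf hs D
  refine ⟨T, hT, ?_⟩
  intro L _ _ _ hL e he φ z w hw hon hzT hzE ι _ _ p _ hinj σ
  have hg : ∀ j, (C e * ex L f).degreeOf j ≤ 4 := fun j =>
    (degreeOf_C_mul_le _ j e).trans ((degreeOf_map_le _ (hf j)))
  obtain ⟨i, hi⟩ : ∃ i, ¬ TorN (ex L f) z i := by
    by_contra hcon
    push Not at hcon
    exact hzT (hTT L hL z hcon φ)
  have hGN : ∀ i j, i ≠ j → GenusOne (line (ex L f) z i) ∧ NotSpecial (ex L f) z i j := by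
    intro i j hij
    refine good_down hf hs φ z i j hij ?_
    by_contra hcon
    exact hzE j ⟨i, hij, fun k => φ (z k), rfl, hcon⟩
  have hG : GenusOne (line (ex L f) z i) := by
    rcases (show i = 0 ∨ i = 1 by omega) with rfl | rfl
    · exact (hGN 0 1 (by decide)).1
    · exact (hGN 1 0 (by decide)).1
  have hG' : GenusOne (line (C e * ex L f) z i) := by
    rw [line_twist]
    exact genus_twist he hG
  have hI : ∀ N : ℕ, N ≠ 0 → ¬ Tor (lc (C e * ex L f) (af z) i) (z i) w N := by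
    intro N hN h5
    rw [lc_smul (ex L f) e he, tws2 L _ e _ _ _ he] at h5
    exact hi ⟨N, hN, h5.2.2⟩
  have hS : ∀ (F : Type) [Field F] [CharZero F] (ψ : L →+* F) (j : Fin 2),
      Serves (map ψ (C e * ex L f)) (image ψ (z, w)).1 i j := by
    intro F _ _ ψ j
    by_cases hij : i = j
    · exact Or.inl hij
    · exact Or.inr (special_map ψ (special_twist he (hGN i j hij).2))
  have hon' : OnCover (C e * ex L f) (z, w) := hon
  refine ⟨?_, fun τ => ?_⟩
  · refine ((Pool.Agent.Results.MP_ed3816_nt.OpenAwayFromTorsion.result).1 L 2 (C e * ex L f) hg ι p hinj σ).1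
      (fun v => image (σ v) (z, w)) (subset_closure ⟨(z, w), hon', rfl⟩) (fun v => ?_) fun j => ⟨i, fun v => ?_⟩
    · exact (map_ne_zero (σ v)).2 hw
    · exact ⟨moves_map (σ v) hg hw hon hG' hI, hS _ (σ v) j⟩
  · refine ((Pool.Agent.Results.MP_ed3816_nt.OpenAwayFromTorsion.result).1 L 2 (C e * ex L f) hg ι p hinj σ).2 τ
      (image τ (z, w), fun v => image (σ v) (z, w)) (subset_closure ⟨(z, w), hon', rfl⟩) ?_ (fun v => ?_)
      fun j => ⟨i, ⟨?_, hS _ τ j⟩, fun v => ?_⟩
    · exact (map_ne_zero τ).2 hw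
    · exact (map_ne_zero (σ v)).2 hw
    · change GenusOne (line (map τ (C e * ex L f)) (fun j => τ (z j)) i)
      rw [line_map]
      exact genus_map τ hG'
    · exact ⟨moves_map (σ v) hg hw hon hG' hI, hS _ (σ v) j⟩

end Pool.Agent.U899.QA
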