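import Pool.Agent.U899.QA.Quad

/-!
# Weak approximation for inequivalent absolute values given by embeddings (helper899)
-/

set_option autoImplicit false

open MvPolynomial Pool.Agent.Y720.MZ Filter Topology

namespace Pool.Agent.U899.QA

open Pool.Agent.Q35.TT Pool.Agent.Q35.TB

/-- the absolute value given by an embedding in a normed field -/
noncomputable def pl {K M : Type} [Field K] [NormedField M] (σ : K →+* M) : AbsoluteValue K ℝ where
  toFun x := ‖σ x‖
  map_mul' x y := by rw [map_mul, norm_mul]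
  nonneg' x := norm_nonneg _
  eq_zero' x := by rw [norm_eq_zero, map_eq_zero]
  add_le' x y := by rw [map_add]; exact norm_add_le _ _

theorem pl_apply {K M : Type} [Field K] [NormedField M] (σ : K →+* M) (x : K) : pl σ x = ‖σ x‖ := rfl

theorem near_of {K M : Type} [Field K] [NormedField M] {σ : K →+* M} (hd : DenseRange σ) (m : M)
    {ε : ℝ} (hε : 0 < ε) : ∃ r : K, ‖σ r - m‖ < ε := by
  obtain ⟨r, hr⟩ := Metric.denseRange_iff.1 hd m ε hε
  exact ⟨r, by rwa [← dist_eq_norm, dist_comm]⟩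

theorem pl_nontrivial {K M : Type} [Field K] [NontriviallyNormedField M] {σ : K →+* M}
    (hd : DenseRange σ) : (pl σ).IsNontrivial := by
  obtain ⟨x, hx⟩ := NormedField.exists_one_lt_norm M
  obtain ⟨r, hr⟩ := near_of hd x (sub_pos.2 hx)
  have h1 : 1 < ‖σ r‖ := by
    have := norm_sub_norm_le x (σ r)
    rw [norm_sub_rev] at this
    linarith
  refine ⟨r, ?_, ?_⟩
  · rintro rfl
    rw [map_zero, norm_zero] at h1
    linarith
  · rw [pl_apply]
    exact h1.ne'

/-- weak approximation for inequivalent absolute values -/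
theorem dn_of {K : Type} [Field K] {ι : Type} [Finite ι] {M : ι → Type}
    [∀ v, NontriviallyNormedField (M v)] (σ : ∀ v, K →+* M v) (hd : ∀ v, DenseRange (σ v))
    (hne : Pairwise fun v v' => ¬ (pl (σ v)).IsEquiv (pl (σ v'))) : Dn σ := by
  intro m η hη
  have h1 : ∀ v, ∃ r : K, ‖σ v r - m v‖ < η / 2 := fun v => near_of (hd v) (m v) (half_pos hη)
  choose r hr using h1
  have h2 := AbsoluteValue.denseRange_algebraMap_pi (F := K) (v := fun i => pl (σ i))
    (fun i => pl_nontrivial (hd i)) hne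
  have : Fintype ι := Fintype.ofFinite ι
  obtain ⟨x, hx⟩ := Metric.denseRange_iff.1 h2 (fun v => (WithAbs.equiv (pl (σ v))).symm (r v))
    (η / 2) (half_pos hη)
  rw [dist_pi_lt_iff (half_pos hη)] at hx
  refine ⟨x, fun v => ?_⟩
  have h3 := hx v
  have h4 : ‖σ v (r v - x)‖ < η / 2 := by
    rw [← pl_apply]
    rw [dist_eq_norm] at h3
    exact h3
  rw [map_sub] at h4
  have h5 := norm_sub_le_norm_sub_add_norm_sub (σ v x) (σ v (r v)) (m v)
  rw [norm_sub_rev (σ v x) (σ v (r v))] at h5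
  have h6 := hr v
  linarith

/-- only finitely many primes belong to a finite set of places -/
theorem fin_primes {K : Type} [Field K] {ι : Type} [Finite ι] {M : ι → Type}
    [∀ v, NontriviallyNormedField (M v)] (σ : ∀ v, K →+* M v) :
    {l : ℕ | ∃ (_ : Fact l.Prime) (θ : K →+* ℚ_[l]) (v : ι), (pl (σ v)).IsEquiv (pl θ)}.Finite := by
  classical
  have h : ∀ l ∈ {l : ℕ | ∃ (_ : Fact l.Prime) (θ : K →+* ℚ_[l]) (v : ι), (pl (σ v)).IsEquiv (pl θ)},
      ∃ v : ι, pl (σ v) (l : K) < 1 ∧ ∀ q : ℕ, q.Prime → q ≠ l → ¬ pl (σ v) (q : K) < 1 := by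
    rintro l ⟨hl, θ, v, hv⟩
    refine ⟨v, ?_, fun q hq hql h1 => ?_⟩
    · rw [hv.lt_one_iff, pl_apply, map_natCast]
      exact Padic.norm_p_lt_one
    · rw [hv.lt_one_iff, pl_apply, map_natCast] at h1
      have h2 : ‖((q : ℕ) : ℚ_[l])‖ = 1 := by
        rw [Padic.norm_natCast_eq_one_iff]
        exact (Nat.coprime_primes hl.out hq).2 (Ne.symm hql)
      rw [h2] at h1
      exact lt_irrefl _ h1
  choose V hV1 hV2 using h
  rw [← Set.finite_coe_iff]
  refine Finite.of_injective (fun l : {l : ℕ | ∃ (_ : Fact l.Prime) (θ : K →+* ℚ_[l]) (v : ι),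
    (pl (σ v)).IsEquiv (pl θ)} => V l.1 l.2) ?_
  rintro ⟨l, hl⟩ ⟨l', hl'⟩ hll
  refine Subtype.ext ?_
  by_contra hne
  have hp' : l'.Prime := hl'.choose.out
  have h5 := hV1 l' hl'
  simp only at hll
  rw [← hll] at h5
  exact hV2 l hl l' hp' (Ne.symm hne) h5

end Pool.Agent.U899.QA
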