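import Pool.Agent.U899.QA.NsqN
import Pool.Agent.U899.QA.Zar

/-!
# Calabi–Yau double covers of `(ℙ¹)ⁿ`: potential density over quadratic extensions with prescribed
places, all dimensions (helper899)
-/

set_option autoImplicit false

open MvPolynomial Pool.Agent.Y720.MZ Filter Topology

namespace Pool.Agent.U899.QA

open Pool.Agent.Q35.TT Pool.Agent.Q35.TB

/-- points of the double cover over a local field, above the points near a given one -/
theorem lift_nearN {K : Type} [Field K] {L : Type} [NontriviallyNormedField L] [CompleteSpace L] [CharZero L]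
    {n : ℕ} (σ : K →+* L) (f : MvPolynomial (Fin n) K) {x : Fin n → L} {w : L} (hw : w ≠ 0)
    (hon : w ^ 2 = eval x (map σ f)) {ε : ℝ} (hε : 0 < ε) :
    ∃ η : ℝ, 0 < η ∧ ∀ z : Fin n → K, (∀ j, ‖σ (z j) - x j‖ < η) →
      ∃ w' : L, w' ^ 2 = σ (eval z f) ∧ ‖w' - w‖ < ε := by
  obtain ⟨δ, hδ, h1⟩ := sq_near hw hε
  have hcont : Continuous fun y : Fin n → L => eval y (map σ f) := MvPolynomial.continuous_eval _
  obtain ⟨η, hη, h2⟩ := Metric.continuous_iff.1 hcont x δ hδ
  refine ⟨η, hη, fun z hz => ?_⟩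
  refine h1 _ ?_
  have h3 := h2 (fun j => σ (z j)) ((dist_pi_lt_iff hη).2 fun j => by rw [dist_eq_norm]; exact hz j)
  rw [dist_eq_norm, ← hon, eval_map, show (fun j => σ (z j)) = σ ∘ z from rfl, ← eval₂_comp σ z f] at h3
  exact h3

/-- finiteness of the set of the special planes descends -/
theorem fs_down {L Ω : Type} [Field L] [CharZero L] [Field Ω] [Algebra L Ω] [Algebra.IsAlgebraic L Ω]
    {n : ℕ} {F : MvPolynomial (Fin n × Fin 2) L} (hF : Hom4 F) (h : FinSpecF (ex Ω F)) : FinSpecF F := by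
  classical
  obtain ⟨-, -, -, h4, -⟩ := exf2 L Ω n F hF
  intro J hJ hJu
  refine ((h J hJ hJu).image fun P : Set (Fin n × Fin 2 → Ω) =>
    {Y : Fin n × Fin 2 → L | (fun p => algebraMap L Ω (Y p)) ∈ P}).subset ?_
  rintro _ ⟨X, hX, hXs, rfl⟩
  have hX' : eval (fun p => algebraMap L Ω (X p)) (ex Ω F) ≠ 0 := by
    rw [ex, eval_map, show (fun p => algebraMap L Ω (X p)) = algebraMap L Ω ∘ X from rfl,
      ← eval₂_comp (algebraMap L Ω) X F]
    exact (map_ne_zero _).2 hX
  refine ⟨_, ⟨fun p => algebraMap L Ω (X p), hX', (h4 X J).2 hXs, rfl⟩, ?_⟩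
  ext Y
  simp only [Set.mem_ofPred_eq]
  constructor
  · intro hY j hj
    obtain ⟨a, ha, hab⟩ := hY j hj
    -- a coordinate which is not zero
    obtain ⟨b, hb⟩ : ∃ b, X (j, b) ≠ 0 := by
      by_contra hcon
      push Not at hcon
      apply hX
      have e := (Pool.Agent.Q182.TT.CHF.chf L n F hF (fun _ => 0)).2.2.2.2.2.1 X
        (fun k => if k = j then 0 else 1)
      have e2 : (fun p : Fin n × Fin 2 => (if p.1 = j then (0 : L) else 1) * X p) = X := by
        funext p
        split_ifs with hp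
        · obtain ⟨p1, p2⟩ := p
          simp only at hp
          rw [hp, hcon p2, mul_zero]
        · rw [one_mul]
      rw [e2] at e
      rw [e, Finset.prod_eq_zero (Finset.mem_univ j) (by simp)]
      simp
    have hXb : algebraMap L Ω (X (j, b)) ≠ 0 := (map_ne_zero _).2 hb
    have ha2 : a = algebraMap L Ω (Y (j, b) / X (j, b)) := by
      rw [map_div₀, eq_div_iff hXb]
      exact (hab b).symm
    refine ⟨Y (j, b) / X (j, b), ?_, fun b' => ?_⟩
    · intro h0
      rw [h0, map_zero] at ha2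
      exact ha ha2
    · apply (algebraMap L Ω).injective
      rw [map_mul, ← ha2]
      exact hab b'
  · intro hY j hj
    obtain ⟨a, ha, hab⟩ := hY j hj
    exact ⟨algebraMap L Ω a, (map_ne_zero _).2 ha, fun b => by rw [hab b, map_mul]⟩

/-- the condition on the special planes: it holds for surfaces, and if there are only finitely many
special planes over the algebraic closure -/
theorem fs_all {K : Type} [Field K] [CharZero K] {n : ℕ} {F : MvPolynomial (Fin n × Fin 2) K}
    (hF : Hom4 F) (hs : SmoothF F) (h : n = 2 ∨ FinSpecF (ex (AlgebraicClosure K) F))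
    (L : Type) [Field L] [CharZero L] [Algebra K L] [Algebra.IsAlgebraic K L] : FinSpecF (ex L F) := by
  obtain ⟨h1, h2, -⟩ := exf2 K L n F hF
  rcases h with rfl | h
  · exact fsf2 L (ex L F) h1 (h2.1 hs)
  · have φ : L →ₐ[K] AlgebraicClosure K := IsAlgClosed.lift
    let _ : Algebra L (AlgebraicClosure K) := (φ : L →+* AlgebraicClosure K).toAlgebra
    have : IsScalarTower K L (AlgebraicClosure K) :=
      IsScalarTower.of_algebraMap_eq fun x => (φ.commutes x).symm
    have : Algebra.IsAlgebraic L (AlgebraicClosure K) := Algebra.IsAlgebraic.tower_top (K := K) L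
    refine fs_down (Ω := AlgebraicClosure K) h1 ?_
    have e : ex (AlgebraicClosure K) (ex L F) = ex (AlgebraicClosure K) F := by
      rw [ex, ex, MvPolynomial.map_map, ← IsScalarTower.algebraMap_eq]
    rw [e]
    exact h

/-- The rational points near the point `P` are Zariski dense. -/
def DenseNearN {L M : Type} [Field L] [NormedField M] {n : ℕ} (σ : L →+* M) (f : MvPolynomial (Fin n) L)
    (P : (Fin n → L) × L) : Prop :=
  ∀ U ∈ 𝓝 ((fun j => σ (P.1 j)), σ P.2), ∀ g : MvPolynomial (Option (Fin n)) L,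
    (∀ Q : (Fin n → L) × L, Q.2 ^ 2 = eval Q.1 f → ((fun j => σ (Q.1 j)), σ Q.2) ∈ U →
      eval (fun o => o.elim Q.2 Q.1) g = 0) → (X none ^ 2 - rename some f) ∣ g

/-- **Zariski density over all fields which contain the square root.** -/
theorem zdN (K : Type) [Field K] [NumberField K] {n : ℕ} (hn : 0 < n)
    (F : MvPolynomial (Fin n × Fin 2) K) (hF : Hom4 F) (hs : SmoothF F)
    (hfs : n = 2 ∨ FinSpecF (ex (AlgebraicClosure K) F)) (ε : Fin n → Fin 2) :
    ∃ A : Fin n → Set K, (∀ j, (A j).Finite) ∧ ∀ z : Fin n → K, (∀ j, z j ∉ A j) →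
      ∀ (L : Type) [Field L] [NumberField L] [Algebra K L] (w : L), w ≠ 0 →
        w ^ 2 = algebraMap K L (eval z (ch F ε)) →
        ∀ (M : Type) [NontriviallyNormedField M] [CompleteSpace M] (σ : L →+* M), DenseRange σ →
          DenseNearN σ (ex L (ch F ε)) (fun j => algebraMap K L (z j), w) := by
  obtain ⟨hf, hsn, -, hsp1, hfn, -⟩ := Pool.Agent.Q182.TT.CHF.chf K n F hF ε
  have hT := tan2 K n (ch F ε) hf (hsn hs)
  have hfsK : FinSpec (ch F ε) := by
    have h1 := fs_all hF hs hfs K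
    have e : ex K F = F := by
      rw [ex, Algebra.algebraMap_self, MvPolynomial.map_id]
    rw [e] at h1
    exact hfn h1
  -- the coordinates of the special planes
  have hB : ∀ j : Fin n, {c : K | ∃ z : Fin n → K, z j = c ∧ eval z (ch F ε) ≠ 0 ∧
      ∃ J : Finset (Fin n), J.Nonempty ∧ j ∉ J ∧ SpecN (ch F ε) z J}.Finite := by
    intro j
    have h1 : (⋃ J ∈ {J : Finset (Fin n) | J.Nonempty ∧ j ∉ J},
        {P : Set (Fin n → K) | ∃ z, eval z (ch F ε) ≠ 0 ∧ SpecN (ch F ε) z J ∧
          P = {y | OnPl J z y}}).Finite := by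
      refine (Set.toFinite _).biUnion fun J hJ => hfsK J hJ.1 ?_
      rintro rfl
      exact hJ.2 (Finset.mem_univ _)
    classical
    refine Set.Finite.subset (h1.image fun P : Set (Fin n → K) =>
      if h : P.Nonempty then h.some j else 0) ?_
    rintro c ⟨z, rfl, hz0, J, hJ, hjJ, hsp⟩
    refine ⟨{y | OnPl J z y}, Set.mem_iUnion₂.2 ⟨J, ⟨hJ, hjJ⟩, z, hz0, hsp, rfl⟩, ?_⟩
    have hne : ({y | OnPl J z y} : Set (Fin n → K)).Nonempty := ⟨z, fun _ _ => rfl⟩
    simp only [dif_pos hne]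
    exact hne.some_mem j hjJ
  refine ⟨fun j => {c | ∃ z : Fin n → K, z j = c ∧ eval z (ch F ε) ≠ 0 ∧
      ∃ J : Finset (Fin n), J.Nonempty ∧ j ∉ J ∧ SpecN (ch F ε) z J} ∪
        (fun z : Fin n → K => z j) '' {z : Fin n → K | ∀ i, TorN (ch F ε) z i},
    fun j => (hB j).union (hT.image _), ?_⟩
  intro z hz L _ _ _ w hw hon M _ _ σ hσ
  have hz0 : eval z (ch F ε) ≠ 0 := by
    intro h0
    rw [h0, map_zero] at hon
    exact hw (pow_eq_zero_iff two_ne_zero |>.1 hon)
  have hFK : FiniteDimensional K L := FiniteDimensional.right ℚ K L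
  obtain ⟨g1, g2, g3, g4, g5⟩ := exf2 K L n F hF
  obtain ⟨h1, h2, h3⟩ := g5 (ch F ε) hf
  have hsL : SmoothN (ex L (ch F ε)) := h2.1 (hsn hs)
  obtain ⟨-, -, -, hsp2, hfnL, -⟩ := Pool.Agent.Q182.TT.CHF.chf L n (ex L F) g1 ε
  have hfsL : FinSpec (ex L (ch F ε)) := by
    rw [← g3 ε]
    exact hfnL (fs_all hF hs hfs L)
  have hnt : ∃ i, ¬ TorN (ex L (ch F ε)) (fun j => algebraMap K L (z j)) i := by
    by_contra hcon
    push Not at hcon
    refine hz ⟨0, hn⟩ (Or.inr ⟨z, fun i => ?_, rfl⟩)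
    exact (h3 z i).1 (hcon i)
  have hns : ∀ J : Finset (Fin n), J.Nonempty → J ≠ Finset.univ →
      ¬ SpecN (ex L (ch F ε)) (fun j => algebraMap K L (z j)) J := by
    intro J hJ hJu hJs
    obtain ⟨j, hj⟩ : ∃ j, j ∉ J := by
      by_contra hcon
      push Not at hcon
      exact hJu (Finset.eq_univ_iff_forall.2 hcon)
    refine hz j (Or.inl ⟨z, rfl, hz0, J, hJ, hj, ?_⟩)
    rw [← g3 ε, hsp2] at hJs
    rw [hsp1, ← g4]
    have e : (Pool.Agent.Q35.TT.pt ε fun j => algebraMap K L (z j)) =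
        fun p => algebraMap K L (Pool.Agent.Q35.TT.pt ε z p) := by
      funext p
      unfold Pool.Agent.Q35.TT.pt
      split_ifs <;> simp
    rw [← e]
    exact hJs
  have hon' : w ^ 2 = eval (fun j => algebraMap K L (z j)) (ex L (ch F ε)) := by
    rw [hon, ex, eval_map, show (fun j => algebraMap K L (z j)) = algebraMap K L ∘ z from rfl,
      ← eval₂_comp (algebraMap K L) z (ch F ε)]
  have hmain := (mzm2 L n (ex L (ch F ε)) h1 hsL hfsL M σ hσ).1 w (fun j => algebraMap K L (z j)) hw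
    hon' hnt hns
  intro U hU g hg
  refine hmain g ?_
  have hsw : Continuous fun q : M × (Fin n → M) => ((q.2, q.1) : (Fin n → M) × M) :=
    continuous_snd.prodMk continuous_fst
  refine ⟨(fun q : M × (Fin n → M) => ((q.2, q.1) : (Fin n → M) × M)) ⁻¹' U,
    hsw.continuousAt.preimage_mem_nhds hU, fun W z' hW hmem => ?_⟩
  exact hg (z', W) hW hmem

end Pool.Agent.U899.QA
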