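import Pool.Agent.U899.QA.PdN
import Pool.Agent.U899.QA.Uni
import Pool.Agent.Q35.ZC.All
import Pool.Agent.Q35.ZC.K3

/-!
# K3 double covers: zero-cycles of points over quadratic extensions (helper899)
-/

set_option autoImplicit false

open MvPolynomial Pool.Agent.Y720.MZ Filter Topology

namespace Pool.Agent.U899.QA

open Pool.Agent.Q35.TT Pool.Agent.Q35.TB
open Pool.Agent.Q35.ZC (near_two finite_special Near Odds Rat dl pt push push_mem push_dl step2 map2 Fibres
  GenusOne NotSpecial Dense DenseReal)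

/-- points with coordinates in the base field near given local points, at which the value of the
polynomial is not a square -/
theorem zex (K : Type) [Field K] [NumberField K] {n : ℕ} (hn : 0 < n)
    (F : MvPolynomial (Fin n × Fin 2) K) (hF : Hom4 F) (hs : SmoothF F) (e : Fin n → Fin 2)
    (ι : Type) [Finite ι] (M : ι → Type) [∀ v, NontriviallyNormedField (M v)]
    [∀ v, CompleteSpace (M v)] (σ : ∀ v, K →+* M v) (hd : ∀ v, DenseRange (σ v))
    (hne : Pairwise fun v v' => ¬ (pl (σ v)).IsEquiv (pl (σ v')))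
    (S : ∀ v, (Fin n → M v) × M v) (hS : ∀ v, (S v).2 ^ 2 = eval (S v).1 (map (σ v) (ch F e)))
    (hS0 : ∀ v, (S v).2 ≠ 0) (N : Type) [Field N] [NumberField N] [Algebra K N] {ε : ℝ} (hε : 0 < ε)
    {A : Fin n → Set K} (hA : ∀ j, (A j).Finite) :
    ∃ z : Fin n → K, (∀ j, z j ∉ A j) ∧ ¬ IsSquare (algebraMap K N (eval z (ch F e))) ∧
      ∀ v, ∃ w' : M v, w' ^ 2 = σ v (eval z (ch F e)) ∧ (∀ j, ‖σ v (z j) - (S v).1 j‖ < ε) ∧
        ‖w' - (S v).2‖ < ε := by
  classical
  obtain ⟨hf, hsn, -⟩ := Pool.Agent.Q182.TT.CHF.chf K n F hF e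
  have hch : ∀ v, CharZero (M v) := fun v => charZero_of_injective_ringHom (σ v).injective
  have hFN : FiniteDimensional K N := FiniteDimensional.right ℚ K N
  obtain ⟨h1, h2, -⟩ := (exf2 K N n F hF).2.2.2.2 (ch F e) hf
  obtain ⟨l, hl, hlS, θ, y, δ, hδ, hns0⟩ :=
    nsqN N hn (ex N (ch F e)) h1 (h2.1 (hsn hs)) (fin_primes σ).toFinset
  obtain ⟨θ0, hθ0⟩ : ∃ θ0 : K →+* ℚ_[l], θ0 = θ.comp (algebraMap K N) := ⟨_, rfl⟩
  have hnv : ∀ v, ¬ (pl (σ v)).IsEquiv (pl θ0) := fun v hv => hlS (by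
    rw [Set.Finite.mem_toFinset]; exact ⟨hl, θ0, v, hv⟩)
  choose η hη hηl using fun v => lift_nearN (σ v) (ch F e) (hS0 v) (hS v) hε
  let ηf : Option ι → ℝ := fun v => v.elim δ fun v => min (η v) ε
  have hηf : ∀ v, 0 < ηf v := by
    rintro (_ | v)
    · exact hδ
    · exact lt_min (hη v) hε
  obtain ⟨v0, hv0⟩ := Finite.exists_min ηf
  have hzz : ∀ j : Fin n, ∃ x : K, x ∉ A j ∧ ∀ v, ‖so θ0 σ v x - (match v with
      | none => y j
      | some v => (S v).1 j : Mo l M v)‖ < ηf v0 := fun j =>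
    dn_avoid (so_dn θ0 σ hd hne hnv) none (hA j) _ (hηf v0)
  choose z hzA hz' using hzz
  have hzl : ∀ j, ‖θ (algebraMap K N (z j)) - y j‖ < δ := fun j => by
    have h := (hz' j none).trans_le (hv0 none)
    have h' : ‖θ0 (z j) - y j‖ < δ := h
    rw [hθ0] at h'
    exact h'
  have hzv : ∀ v j, ‖σ v (z j) - (S v).1 j‖ < min (η v) ε := fun v j =>
    (hz' j (some v)).trans_le (hv0 (some v))
  have hnsN : ¬ IsSquare (algebraMap K N (eval z (ch F e))) := by
    have h := hns0 (fun j => algebraMap K N (z j)) hzl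
    have e' : eval (fun j => algebraMap K N (z j)) (ex N (ch F e)) =
        algebraMap K N (eval z (ch F e)) := by
      rw [ex, eval_map, show (fun j => algebraMap K N (z j)) = algebraMap K N ∘ z from rfl,
        ← eval₂_comp (algebraMap K N) z (ch F e)]
    rwa [e'] at h
  refine ⟨z, hzA, hnsN, fun v => ?_⟩
  obtain ⟨w', hw', hw'n⟩ := hηl v z fun j => (hzv v j).trans_le (min_le_left _ _)
  exact ⟨w', hw', fun j => (hzv v j).trans_le (min_le_right _ _), hw'n⟩

/-- the classes near the points over the points with coordinates in the base field -/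
theorem zc1 (K : Type) [Field K] [NumberField K] (f : MvPolynomial (Fin 2) K)
    (hf : ∀ j, f.degreeOf j ≤ 4) (hs : SmoothN f) :
    ∃ A : Fin 2 → Set K, (∀ j, (A j).Finite) ∧ ∀ z : Fin 2 → K, (∀ j, z j ∉ A j) →
      ∀ (L : Type) [Field L] [NumberField L] [Algebra K L] (w : L), w ≠ 0 →
        w ^ 2 = algebraMap K L (eval z f) →
        Near (ex L f) (Odds (ex L f) (fun j => algebraMap K L (z j), w))
          (fun j => algebraMap K L (z j), w) := by
  have hT := tan2 K 2 f hf hs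
  refine ⟨fun j => {c | ∃ i, i ≠ j ∧ ∃ x : Fin 2 → K, x j = c ∧
    ¬ (GenusOne (Pool.Agent.Q35.ZC.line f x i) ∧ NotSpecial f x i j)} ∪
      (fun z : Fin 2 → K => z j) '' {z : Fin 2 → K | ∀ i, TorN f z i},
    fun j => Set.Finite.union ?_ (hT.image _), ?_⟩
  · have h4 : (⋃ i ∈ {i : Fin 2 | i ≠ j}, {c | ∃ x : Fin 2 → K, x j = c ∧
        ¬ (GenusOne (Pool.Agent.Q35.ZC.line f x i) ∧ NotSpecial f x i j)}).Finite :=
      (Set.toFinite _).biUnion fun i hi => finite_special Pool.Agent.Q149.TT.spe hf hs i j hi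
    refine h4.subset ?_
    rintro c ⟨i, hi, x, hx, hn⟩
    exact Set.mem_iUnion₂.2 ⟨i, hi, x, hx, hn⟩
  intro z hz L _ _ _ w hw hon
  have hFK : FiniteDimensional K L := FiniteDimensional.right ℚ K L
  obtain ⟨h1, -, h3⟩ := (exf2 K L 2 0 (fun m hm => by simp at hm)).2.2.2.2 f hf
  obtain ⟨i, hi⟩ : ∃ i, ¬ TorN (ex L f) (fun j => algebraMap K L (z j)) i := by
    by_contra hcon
    push Not at hcon
    refine hz 0 (Or.inr ⟨z, fun i => ?_, rfl⟩)
    exact (h3 z i).1 (hcon i)
  have hGN : ∀ i j, i ≠ j →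
      GenusOne (Pool.Agent.Q35.ZC.line (ex L f) (fun j => algebraMap K L (z j)) i) ∧
      NotSpecial (ex L f) (fun j => algebraMap K L (z j)) i j := by
    intro i j hij
    have h : GenusOne (Pool.Agent.Q35.ZC.line f z i) ∧ NotSpecial f z i j := by
      by_contra hcon
      exact hz j (Or.inl ⟨i, hij, z, rfl, hcon⟩)
    refine ⟨?_, Pool.Agent.Q222.TT.Opn.special_map (algebraMap K L) h.2⟩
    have h5 := Pool.Agent.Q222.TT.Opn.genus_map (algebraMap K L) h.1
    have h6 := Pool.Agent.Q222.TT.Opn.line_map (algebraMap K L) f z i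
    change Pool.Agent.Results.MP_ed3816_nt.OpenAwayFromTorsion.GenusOne
      (Pool.Agent.Results.MP_ed3816_nt.OpenAwayFromTorsion.line (map (algebraMap K L) f)
        (fun j => algebraMap K L (z j)) i)
    rw [h6]
    exact h5
  have hG : GenusOne (Pool.Agent.Q35.ZC.line (ex L f) (fun j => algebraMap K L (z j)) i) := by
    rcases (show i = 0 ∨ i = 1 by omega) with rfl | rfl
    · exact (hGN 0 1 (by decide)).1
    · exact (hGN 1 0 (by decide)).1
  have hon' : w ^ 2 = eval (fun j => algebraMap K L (z j)) (C 1 * ex L f) := by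
    rw [C_1, one_mul, hon, ex, eval_map,
      show (fun j => algebraMap K L (z j)) = algebraMap K L ∘ z from rfl,
      ← eval₂_comp (algebraMap K L) z f]
  have hmain := near_two step2 tws2 h1 one_ne_zero hw hon' hi hG
    fun j hj => (hGN i j (Ne.symm hj)).2
  simpa only [C_1, one_mul] using hmain

/-- The point with the conjugate coordinates. -/
def cj {L : Type} [Field L] {n : ℕ} (s : L →+* L) (Q : (Fin n → L) × L) : (Fin n → L) × L :=
  (fun j => s (Q.1 j), s Q.2)

/-- **Traces.** -/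
theorem tr {K L : Type} [Field K] [Field L] [Algebra K L] {n : ℕ} (f : MvPolynomial (Fin n) K)
    (s : L →+* L) (hs : s.comp (algebraMap K L) = algebraMap K L) {z : Fin n → K} {w : L}
    (hw : s w = -w) {Q : (Fin n → L) × L}
    (hQ : Q ∈ Odds (ex L f) (fun j => algebraMap K L (z j), w)) {x : Fin n → L} {y : L}
    (hR : y ^ 2 = eval x (ex L f)) :
    2 • (pt Q.1 Q.2 + pt (cj s Q).1 (cj s Q).2 - pt x y - pt x (-y)) ∈ Rat (ex L f) := by
  obtain ⟨hon, m, hm⟩ := hQ
  have hmap : map s (ex L f) = ex L f := by rw [ex, MvPolynomial.map_map, hs]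
  have h1 := push_mem map2 s hm
  rw [hmap, map_sub, map_zsmul, push_dl, push_dl] at h1
  have e1 : (fun k => s ((fun j => algebraMap K L (z j)) k)) = fun j => algebraMap K L (z j) := by
    funext j
    exact congrFun (congrArg DFunLike.coe hs) (z j)
  simp only at h1 e1
  rw [e1, hw] at h1
  have honQ : Q.2 ^ 2 = eval Q.1 (ex L f) := hon
  have hon' : (cj s Q).2 ^ 2 = eval (cj s Q).1 (ex L f) := by
    have h2 := congrArg s honQ
    have h7 : eval (fun j => s (Q.1 j)) (map s (ex L f)) = s (eval Q.1 (ex L f)) := by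
      rw [eval_map, show (fun j => s (Q.1 j)) = s ∘ Q.1 from rfl, ← eval₂_comp s Q.1 (ex L f)]
    rw [hmap] at h7
    rw [map_pow, ← h7] at h2
    exact h2
  have h3 : pt Q.1 Q.2 + pt Q.1 (-Q.2) - pt x y - pt x (-y) ∈ Rat (ex L f) :=
    AddSubgroup.subset_closure (Or.inr ⟨_, _, _, _, honQ, hR, rfl⟩)
  have h4 : pt (cj s Q).1 (cj s Q).2 + pt (cj s Q).1 (-(cj s Q).2) - pt x y - pt x (-y) ∈
      Rat (ex L f) :=
    AddSubgroup.subset_closure (Or.inr ⟨_, _, _, _, hon', hR, rfl⟩)
  have h5 := add_mem (add_mem hm h1) (add_mem h3 h4)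
  have e2 : dl (fun j => algebraMap K L (z j)) (-w) = -dl (fun j => algebraMap K L (z j)) w := by
    simp only [dl, neg_neg]
    abel
  rw [e2] at h5
  convert h5 using 1
  simp only [dl, cj, smul_sub, smul_neg]
  abel

end Pool.Agent.U899.QA
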